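import Mathlib

/-!
# Entropy of functions on a finite weighted space

`pr w f a` is the mass of `{f = a}`, `Ent w f` the Shannon entropy (natural logarithm) of the
function `f` on the finite probability space `(Ω, w)`.  No finiteness of the target is needed.
-/

set_option autoImplicit false

namespace Pool.Agent.Helper15.BP

open Finset

variable {Ω Ω' α β γ δ : Type*} [Fintype Ω] [Fintype Ω']

/-- probability weights -/
structure IsPr (w : Ω → ℝ) : Prop where
  nonneg : ∀ o, 0 ≤ w o
  sum_one : ∑ o, w o = 1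

/-- the mass of the event `f = a` -/
noncomputable def pr (w : Ω → ℝ) (f : Ω → α) (a : α) : ℝ := by
  classical exact ∑ o, if f o = a then w o else 0

/-- Shannon entropy of `f` -/
noncomputable def Ent (w : Ω → ℝ) (f : Ω → α) : ℝ := ∑ o, w o * (-Real.log (pr w f (f o)))

/-- product weights -/
def prodW (w : Ω → ℝ) (w' : Ω' → ℝ) : Ω × Ω' → ℝ := fun p => w p.1 * w' p.2

theorem pr_nonneg {w : Ω → ℝ} (hw : IsPr w) (f : Ω → α) (a : α) : 0 ≤ pr w f a := by
  classical
  unfold pr
  exact Finset.sum_nonneg fun o _ => by split_ifs <;> simp [hw.nonneg]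

theorem le_pr {w : Ω → ℝ} (hw : IsPr w) (f : Ω → α) (o : Ω) : w o ≤ pr w f (f o) := by
  classical
  unfold pr
  have h := Finset.single_le_sum (f := fun x => if f x = f o then w x else 0)
    (fun x _ => by split_ifs <;> simp [hw.nonneg]) (Finset.mem_univ o)
  simpa using h

theorem pr_le_one {w : Ω → ℝ} (hw : IsPr w) (f : Ω → α) (a : α) : pr w f a ≤ 1 := by
  classical
  unfold pr
  rw [← hw.sum_one]
  exact Finset.sum_le_sum fun o _ => by split_ifs <;> simp [hw.nonneg]

theorem pr_pos {w : Ω → ℝ} (hw : IsPr w) (f : Ω → α) {o : Ω} (ho : 0 < w o) :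
    0 < pr w f (f o) := lt_of_lt_of_le ho (le_pr hw f o)

/-- functions inducing the same partition have the same fibre masses -/
theorem pr_congr {w : Ω → ℝ} {f : Ω → α} {g : Ω → β} (h : ∀ o o', f o = f o' ↔ g o = g o')
    (o : Ω) : pr w f (f o) = pr w g (g o) := by
  classical
  unfold pr
  refine Finset.sum_congr rfl fun x _ => ?_
  by_cases hx : f x = f o
  · rw [if_pos hx, if_pos ((h x o).1 hx)]
  · rw [if_neg hx, if_neg fun h' => hx ((h x o).2 h')]

theorem Ent_congr {w : Ω → ℝ} {f : Ω → α} {g : Ω → β} (h : ∀ o o', f o = f o' ↔ g o = g o') :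
    Ent w f = Ent w g := by
  unfold Ent
  exact Finset.sum_congr rfl fun o _ => by rw [pr_congr h o]

theorem pr_mono {w : Ω → ℝ} (hw : IsPr w) {f : Ω → α} {g : Ω → β}
    (h : ∀ o o', g o = g o' → f o = f o') (o : Ω) : pr w g (g o) ≤ pr w f (f o) := by
  classical
  unfold pr
  refine Finset.sum_le_sum fun x _ => ?_
  by_cases hx : g x = g o
  · rw [if_pos hx, if_pos (h x o hx)]
  · rw [if_neg hx]
    split_ifs <;> simp [hw.nonneg]

/-- coarser functions have smaller entropy -/
theorem Ent_mono {w : Ω → ℝ} (hw : IsPr w) {f : Ω → α} {g : Ω → β}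
    (h : ∀ o o', g o = g o' → f o = f o') : Ent w f ≤ Ent w g := by
  unfold Ent
  refine Finset.sum_le_sum fun o _ => ?_
  rcases (hw.nonneg o).eq_or_lt with h0 | h0
  · rw [← h0]; simp
  · refine mul_le_mul_of_nonneg_left ?_ (hw.nonneg o)
    have h1 := pr_pos hw g h0
    exact neg_le_neg (Real.log_le_log h1 (pr_mono hw h o))

theorem Ent_nonneg {w : Ω → ℝ} (hw : IsPr w) (f : Ω → α) : 0 ≤ Ent w f := by
  unfold Ent
  refine Finset.sum_nonneg fun o _ => ?_
  exact mul_nonneg (hw.nonneg o) (neg_nonneg.2 (Real.log_nonpos (pr_nonneg hw f _) (pr_le_one hw f _)))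

/-! ### Submodularity -/

/-- `∑ o, w o * F (f o)` as a sum over the image -/
theorem sum_w_comp [DecidableEq α] (w : Ω → ℝ) (f : Ω → α) (F : α → ℝ) :
    ∑ o, w o * F (f o) = ∑ a ∈ Finset.univ.image f, pr w f a * F a := by
  have h1 : ∀ a ∈ Finset.univ.image f, pr w f a * F a =
      ∑ o, if f o = a then w o * F (f o) else 0 := by
    intro a _
    unfold pr
    rw [Finset.sum_mul]
    refine Finset.sum_congr rfl fun o _ => ?_
    by_cases h : f o = a
    · simp [h]
    · simp [h]
  rw [Finset.sum_congr rfl h1, Finset.sum_comm]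
  refine Finset.sum_congr rfl fun o _ => ?_
  rw [Finset.sum_ite_eq]
  simp

theorem pr_zero_or {w : Ω → ℝ} (f : Ω → α) (a : α) (h : ∀ o, f o ≠ a) : pr w f a = 0 := by
  classical
  unfold pr
  exact Finset.sum_eq_zero fun o _ => by rw [if_neg (h o)]

/-- masses of a pair, summed over the second coordinate -/
theorem sum_pr_pair [DecidableEq β] (w : Ω → ℝ) (f : Ω → α) (g : Ω → β) (a : α) :
    ∑ b ∈ Finset.univ.image g, pr w (fun o => (f o, g o)) (a, b) = pr w f a := by
  unfold pr
  rw [Finset.sum_comm]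
  refine Finset.sum_congr rfl fun o _ => ?_
  by_cases h : f o = a
  · rw [Finset.sum_eq_single (g o)]
    · simp [h]
    · intro b _ hb
      rw [if_neg]
      intro h'
      exact hb (congrArg Prod.snd h').symm
    · intro h'
      exact absurd (Finset.mem_image_of_mem g (Finset.mem_univ o)) h'
  · rw [if_neg h]
    refine Finset.sum_eq_zero fun b _ => ?_
    rw [if_neg]
    intro h'
    exact h (congrArg Prod.fst h')

/-- **Submodularity**: `H(A,B,C) + H(C) ≤ H(A,C) + H(B,C)`. -/
theorem Ent_submod {w : Ω → ℝ} (hw : IsPr w) (A : Ω → α) (B : Ω → β) (C : Ω → γ) :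
    Ent w (fun o => (A o, B o, C o)) + Ent w C ≤
      Ent w (fun o => (A o, C o)) + Ent w (fun o => (B o, C o)) := by
  classical
  set pABC := fun o => pr w (fun o => (A o, B o, C o)) (A o, B o, C o) with hABC
  set pC := fun o => pr w C (C o) with hC
  set pAC := fun o => pr w (fun o => (A o, C o)) (A o, C o) with hAC
  set pBC := fun o => pr w (fun o => (B o, C o)) (B o, C o) with hBC
  -- the key sum
  have key : ∑ o, w o * (pAC o * pBC o / (pABC o * pC o)) ≤ 1 := by
    have h1 : ∀ o, w o * (pAC o * pBC o / (pABC o * pC o)) =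
        w o * (fun t : α × β × γ => pr w (fun o => (A o, C o)) (t.1, t.2.2) *
          pr w (fun o => (B o, C o)) (t.2.1, t.2.2) /
          (pr w (fun o => (A o, B o, C o)) t * pr w C t.2.2)) (A o, B o, C o) := by
      intro o; rfl
    rw [Finset.sum_congr rfl fun o _ => h1 o,
      sum_w_comp w (fun o => (A o, B o, C o)) (fun t : α × β × γ =>
        pr w (fun o => (A o, C o)) (t.1, t.2.2) * pr w (fun o => (B o, C o)) (t.2.1, t.2.2) /
          (pr w (fun o => (A o, B o, C o)) t * pr w C t.2.2))]
    -- termwise bound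
    have h2 : ∀ t ∈ Finset.univ.image (fun o => (A o, B o, C o)),
        pr w (fun o => (A o, B o, C o)) t *
          (pr w (fun o => (A o, C o)) (t.1, t.2.2) * pr w (fun o => (B o, C o)) (t.2.1, t.2.2) /
          (pr w (fun o => (A o, B o, C o)) t * pr w C t.2.2)) ≤
        pr w (fun o => (A o, C o)) (t.1, t.2.2) * pr w (fun o => (B o, C o)) (t.2.1, t.2.2) /
          pr w C t.2.2 := by
      intro t _
      have hn1 := pr_nonneg hw (fun o => (A o, C o)) (t.1, t.2.2)
      have hn2 := pr_nonneg hw (fun o => (B o, C o)) (t.2.1, t.2.2)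
      have hn3 := pr_nonneg hw C t.2.2
      rcases (pr_nonneg hw (fun o => (A o, B o, C o)) t).eq_or_lt with h0 | h0
      · rw [← h0]
        simp only [zero_mul]
        positivity
      · rw [← mul_div_assoc, mul_div_mul_left _ _ h0.ne']
    refine (Finset.sum_le_sum h2).trans ?_
    -- enlarge the index set to the product of the images
    have h3 : Finset.univ.image (fun o => (A o, B o, C o)) ⊆
        (Finset.univ.image A) ×ˢ ((Finset.univ.image B) ×ˢ (Finset.univ.image C)) := by
      intro t ht
      rw [Finset.mem_image] at ht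
      obtain ⟨o, -, rfl⟩ := ht
      simp only [Finset.mem_product, Finset.mem_image, Finset.mem_univ, true_and]
      exact ⟨⟨o, rfl⟩, ⟨o, rfl⟩, ⟨o, rfl⟩⟩
    refine (Finset.sum_le_sum_of_subset_of_nonneg h3 fun t _ _ => ?_).trans ?_
    · have hn1 := pr_nonneg hw (fun o => (A o, C o)) (t.1, t.2.2)
      have hn2 := pr_nonneg hw (fun o => (B o, C o)) (t.2.1, t.2.2)
      have hn3 := pr_nonneg hw C t.2.2
      positivity
    rw [Finset.sum_product]
    simp only
    have h4 : ∀ a, ∑ bc ∈ (Finset.univ.image B) ×ˢ (Finset.univ.image C),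
        pr w (fun o => (A o, C o)) (a, bc.2) * pr w (fun o => (B o, C o)) (bc.1, bc.2) /
          pr w C bc.2 =
        ∑ c ∈ Finset.univ.image C, pr w (fun o => (A o, C o)) (a, c) *
          (∑ b ∈ Finset.univ.image B, pr w (fun o => (B o, C o)) (b, c)) / pr w C c := by
      intro a
      rw [Finset.sum_product_right]
      refine Finset.sum_congr rfl fun c _ => ?_
      rw [Finset.mul_sum, Finset.sum_div]
    have h5 : ∀ c, ∑ b ∈ Finset.univ.image B, pr w (fun o => (B o, C o)) (b, c) = pr w C c := by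
      intro c
      have := sum_pr_pair w C B c
      rw [← this]
      refine Finset.sum_congr rfl fun b _ => ?_
      unfold pr
      exact Finset.sum_congr rfl fun o _ => by simp [and_comm]
    have h5' : ∀ c, ∑ a ∈ Finset.univ.image A, pr w (fun o => (A o, C o)) (a, c) = pr w C c := by
      intro c
      have := sum_pr_pair w C A c
      rw [← this]
      refine Finset.sum_congr rfl fun b _ => ?_
      unfold pr
      exact Finset.sum_congr rfl fun o _ => by simp [and_comm]
    rw [Finset.sum_congr rfl fun a _ => h4 a, Finset.sum_comm]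
    have h6 : ∀ c ∈ Finset.univ.image C, ∑ a ∈ Finset.univ.image A,
        pr w (fun o => (A o, C o)) (a, c) *
          (∑ b ∈ Finset.univ.image B, pr w (fun o => (B o, C o)) (b, c)) / pr w C c ≤
        pr w C c := by
      intro c _
      rw [h5 c, ← Finset.sum_div, ← Finset.sum_mul, h5' c]
      rcases (pr_nonneg hw C c).eq_or_lt with h0 | h0
      · rw [← h0]; simp
      · rw [mul_div_assoc, div_self h0.ne', mul_one]
    refine (Finset.sum_le_sum h6).trans ?_
    have h7 := sum_w_comp w C (fun _ => 1)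
    simp only [mul_one] at h7
    rw [← h7, hw.sum_one]
  -- conclude
  have h8 : Ent w (fun o => (A o, B o, C o)) + Ent w C - Ent w (fun o => (A o, C o)) -
      Ent w (fun o => (B o, C o)) = ∑ o, w o * (-Real.log (pABC o) + -Real.log (pC o) -
        -Real.log (pAC o) - -Real.log (pBC o)) := by
    unfold Ent
    rw [← Finset.sum_add_distrib, ← Finset.sum_sub_distrib, ← Finset.sum_sub_distrib]
    refine Finset.sum_congr rfl fun o _ => ?_
    ring
  have h9 : ∑ o, w o * (-Real.log (pABC o) + -Real.log (pC o) -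
        -Real.log (pAC o) - -Real.log (pBC o)) ≤
      ∑ o, (w o * (pAC o * pBC o / (pABC o * pC o)) - w o) := by
    refine Finset.sum_le_sum fun o _ => ?_
    rcases (hw.nonneg o).eq_or_lt with h0 | h0
    · rw [← h0]; simp
    · have q1 : 0 < pABC o := pr_pos hw (fun o => (A o, B o, C o)) h0
      have q2 : 0 < pC o := pr_pos hw C h0
      have q3 : 0 < pAC o := pr_pos hw (fun o => (A o, C o)) h0
      have q4 : 0 < pBC o := pr_pos hw (fun o => (B o, C o)) h0
      have h10 := Real.log_le_sub_one_of_pos (show 0 < pAC o * pBC o / (pABC o * pC o) by positivity)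
      rw [Real.log_div (by positivity) (by positivity), Real.log_mul q3.ne' q4.ne',
        Real.log_mul q1.ne' q2.ne'] at h10
      have h11 := mul_le_mul_of_nonneg_left h10 h0.le
      nlinarith
  rw [Finset.sum_sub_distrib, hw.sum_one] at h9
  linarith

/-- entropy grows by at most `log N` when each fibre of `C` carries at most `N` values of `A` -/
theorem Ent_le_add_log {w : Ω → ℝ} (hw : IsPr w) (A : Ω → α) (C : Ω → γ) (N : ℕ)
    (hN : ∀ o, {a : α | ∃ o', C o' = C o ∧ A o' = a}.ncard ≤ N) :
    Ent w (fun o => (A o, C o)) ≤ Ent w C + Real.log N := by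
  classical
  have hΩ : Nonempty Ω := by
    by_contra h
    rw [not_nonempty_iff] at h
    have := hw.sum_one
    simp at this
  have hN1 : 1 ≤ N := by
    obtain ⟨o⟩ := hΩ
    refine le_trans ?_ (hN o)
    rw [Nat.one_le_iff_ne_zero, Ne, Set.ncard_eq_zero (Set.Finite.subset (Set.finite_range A)
      (by rintro a ⟨o', -, rfl⟩; exact ⟨o', rfl⟩))]
    intro h
    have : A o ∈ ({a : α | ∃ o', C o' = C o ∧ A o' = a} : Set α) := ⟨o, rfl, rfl⟩
    rw [h] at this
    exact this
  have hNr : (0 : ℝ) < N := by exact_mod_cast hN1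
  set pC := fun o => pr w C (C o) with hC
  set pAC := fun o => pr w (fun o => (A o, C o)) (A o, C o) with hAC
  have key : ∑ o, w o * (pC o / pAC o) ≤ N := by
    have h1 : ∀ o, w o * (pC o / pAC o) =
        w o * (fun t : α × γ => pr w C t.2 / pr w (fun o => (A o, C o)) t) (A o, C o) := by
      intro o; rfl
    rw [Finset.sum_congr rfl fun o _ => h1 o,
      sum_w_comp w (fun o => (A o, C o)) (fun t : α × γ =>
        pr w C t.2 / pr w (fun o => (A o, C o)) t)]
    have h2 : ∀ t ∈ Finset.univ.image (fun o => (A o, C o)),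
        pr w (fun o => (A o, C o)) t * (pr w C t.2 / pr w (fun o => (A o, C o)) t) ≤
        pr w C t.2 := by
      intro t _
      have hn3 := pr_nonneg hw C t.2
      rcases (pr_nonneg hw (fun o => (A o, C o)) t).eq_or_lt with h0 | h0
      · rw [← h0, zero_mul]; exact hn3
      · rw [mul_div_cancel₀ _ h0.ne']
    refine (Finset.sum_le_sum h2).trans ?_
    -- group by the second coordinate
    have h3 : ∑ t ∈ Finset.univ.image (fun o => (A o, C o)), pr w C t.2 =
        ∑ c ∈ Finset.univ.image C, ∑ t ∈ (Finset.univ.image (fun o => (A o, C o))).filter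
          (fun t => t.2 = c), pr w C t.2 := by
      refine (Finset.sum_fiberwise_of_maps_to (g := Prod.snd) (fun t ht => ?_) _).symm
      rw [Finset.mem_image] at ht
      obtain ⟨o, -, rfl⟩ := ht
      exact Finset.mem_image_of_mem C (Finset.mem_univ o)
    rw [h3]
    have h4 : ∀ c ∈ Finset.univ.image C,
        ∑ t ∈ (Finset.univ.image (fun o => (A o, C o))).filter (fun t => t.2 = c), pr w C t.2 ≤
          N * pr w C c := by
      intro c hc
      rw [Finset.mem_image] at hc
      obtain ⟨o, -, rfl⟩ := hc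
      have h5 : ∀ t ∈ (Finset.univ.image (fun o => (A o, C o))).filter (fun t => t.2 = C o),
          pr w C t.2 = pr w C (C o) := by
        intro t ht
        rw [(Finset.mem_filter.1 ht).2]
      rw [Finset.sum_congr rfl h5, Finset.sum_const, nsmul_eq_mul]
      refine mul_le_mul_of_nonneg_right ?_ (pr_nonneg hw C _)
      have h6 : ((Finset.univ.image (fun o => (A o, C o))).filter (fun t => t.2 = C o)).card ≤
          {a : α | ∃ o', C o' = C o ∧ A o' = a}.ncard := by
        have hfin : ({a : α | ∃ o', C o' = C o ∧ A o' = a} : Set α).Finite :=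
          Set.Finite.subset (Set.finite_range A) (by rintro a ⟨o', -, rfl⟩; exact ⟨o', rfl⟩)
        rw [Set.ncard_eq_toFinset_card _ hfin]
        refine Finset.card_le_card_of_injOn Prod.fst ?_ ?_
        · intro t ht
          rw [Finset.mem_coe, Finset.mem_filter, Finset.mem_image] at ht
          obtain ⟨⟨o', -, rfl⟩, h7⟩ := ht
          rw [Finset.mem_coe, Set.Finite.mem_toFinset]
          exact ⟨o', h7, rfl⟩
        · intro t ht t' ht' htt
          rw [Finset.mem_coe, Finset.mem_filter] at ht ht'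
          exact Prod.ext htt (ht.2.trans ht'.2.symm)
      exact_mod_cast h6.trans (hN o)
    refine (Finset.sum_le_sum h4).trans ?_
    rw [← Finset.mul_sum]
    have h7 := sum_w_comp w C (fun _ => 1)
    simp only [mul_one] at h7
    rw [← h7, hw.sum_one, mul_one]
  have h8 : Ent w (fun o => (A o, C o)) - Ent w C =
      ∑ o, w o * (-Real.log (pAC o) - -Real.log (pC o)) := by
    unfold Ent
    rw [← Finset.sum_sub_distrib]
    refine Finset.sum_congr rfl fun o _ => ?_
    ring
  have h9 : ∑ o, w o * (-Real.log (pAC o) - -Real.log (pC o)) ≤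
      ∑ o, (w o * Real.log N + w o * (pC o / pAC o) / N - w o) := by
    refine Finset.sum_le_sum fun o _ => ?_
    rcases (hw.nonneg o).eq_or_lt with h0 | h0
    · rw [← h0]; simp
    · have q2 : 0 < pC o := pr_pos hw C h0
      have q3 : 0 < pAC o := pr_pos hw (fun o => (A o, C o)) h0
      have h10 := Real.log_le_sub_one_of_pos (show 0 < pC o / pAC o / N by positivity)
      rw [Real.log_div (by positivity) (by positivity), Real.log_div q2.ne' q3.ne'] at h10
      have h11 := mul_le_mul_of_nonneg_left h10 h0.le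
      have h12 : w o * (pC o / pAC o / N - 1) = w o * (pC o / pAC o) / N - w o := by ring
      rw [h12] at h11
      nlinarith
  rw [Finset.sum_sub_distrib, Finset.sum_add_distrib, ← Finset.sum_mul, hw.sum_one, one_mul,
    ← Finset.sum_div] at h9
  have h13 : (∑ o, w o * (pC o / pAC o)) / N ≤ 1 := by
    rw [div_le_one hNr]; exact key
  linarith

/-! ### Products -/

theorem IsPr.prod {w : Ω → ℝ} {w' : Ω' → ℝ} (hw : IsPr w) (hw' : IsPr w') :
    IsPr (prodW w w') := by
  refine ⟨fun p => mul_nonneg (hw.nonneg _) (hw'.nonneg _), ?_⟩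
  unfold prodW
  rw [Fintype.sum_prod_type]
  simp only
  have : ∀ x, ∑ y, w x * w' y = w x := by
    intro x
    rw [← Finset.mul_sum, hw'.sum_one, mul_one]
  rw [Finset.sum_congr rfl fun x _ => this x, hw.sum_one]

theorem pr_prod (w : Ω → ℝ) (w' : Ω' → ℝ) (f : Ω → α) (g : Ω' → β) (a : α) (b : β) :
    pr (prodW w w') (fun p => (f p.1, g p.2)) (a, b) = pr w f a * pr w' g b := by
  unfold pr prodW
  rw [Fintype.sum_prod_type, Finset.sum_mul_sum]
  refine Finset.sum_congr rfl fun x _ => Finset.sum_congr rfl fun y _ => ?_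
  by_cases h1 : f x = a <;> by_cases h2 : g y = b <;> simp [h1, h2]

theorem pr_fst {w : Ω → ℝ} {w' : Ω' → ℝ} (hw' : IsPr w') (f : Ω → α) (a : α) :
    pr (prodW w w') (fun p => f p.1) a = pr w f a := by
  unfold pr prodW
  rw [Fintype.sum_prod_type]
  refine Finset.sum_congr rfl fun x _ => ?_
  by_cases h1 : f x = a
  · simp only [h1, if_true]
    rw [← Finset.mul_sum, hw'.sum_one, mul_one]
  · simp [h1]

theorem pr_snd {w : Ω → ℝ} {w' : Ω' → ℝ} (hw : IsPr w) (g : Ω' → β) (b : β) :
    pr (prodW w w') (fun p => g p.2) b = pr w' g b := by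
  unfold pr prodW
  rw [Fintype.sum_prod_type_right]
  refine Finset.sum_congr rfl fun y _ => ?_
  by_cases h1 : g y = b
  · simp only [h1, if_true]
    rw [← Finset.sum_mul, hw.sum_one, one_mul]
  · simp [h1]

theorem sum_prodW_fst {w : Ω → ℝ} {w' : Ω' → ℝ} (hw' : IsPr w') (F : Ω → ℝ) :
    ∑ p, prodW w w' p * F p.1 = ∑ o, w o * F o := by
  unfold prodW
  rw [Fintype.sum_prod_type]
  refine Finset.sum_congr rfl fun x _ => ?_
  simp only
  have : ∀ y, w x * w' y * F x = w x * F x * w' y := fun y => by ring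
  rw [Finset.sum_congr rfl fun y _ => this y, ← Finset.mul_sum, hw'.sum_one, mul_one]

theorem sum_prodW_snd {w : Ω → ℝ} {w' : Ω' → ℝ} (hw : IsPr w) (F : Ω' → ℝ) :
    ∑ p, prodW w w' p * F p.2 = ∑ o, w' o * F o := by
  unfold prodW
  rw [Fintype.sum_prod_type_right]
  refine Finset.sum_congr rfl fun x _ => ?_
  simp only
  have : ∀ y, w y * w' x * F x = w y * (w' x * F x) := fun y => by ring
  rw [Finset.sum_congr rfl fun y _ => this y, ← Finset.sum_mul, hw.sum_one, one_mul]

/-- entropy of an independent pair -/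
theorem Ent_prod {w : Ω → ℝ} {w' : Ω' → ℝ} (hw : IsPr w) (hw' : IsPr w') (f : Ω → α)
    (g : Ω' → β) :
    Ent (prodW w w') (fun p => (f p.1, g p.2)) = Ent w f + Ent w' g := by
  unfold Ent
  rw [← sum_prodW_fst (w' := w') hw' (fun o => -Real.log (pr w f (f o))),
    ← sum_prodW_snd (w := w) hw (fun o => -Real.log (pr w' g (g o))), ← Finset.sum_add_distrib]
  refine Finset.sum_congr rfl fun p _ => ?_
  rw [pr_prod, ← mul_add]
  rcases ((hw.prod hw').nonneg p).eq_or_lt with h0 | h0
  · rw [← h0, zero_mul, zero_mul]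
  · have h1 : 0 < w p.1 := by
      rcases (hw.nonneg p.1).eq_or_lt with h | h
      · unfold prodW at h0; rw [← h, zero_mul] at h0; exact absurd h0 (lt_irrefl _)
      · exact h
    have h2 : 0 < w' p.2 := by
      rcases (hw'.nonneg p.2).eq_or_lt with h | h
      · unfold prodW at h0; rw [← h, mul_zero] at h0; exact absurd h0 (lt_irrefl _)
      · exact h
    rw [Real.log_mul (pr_pos hw f h1).ne' (pr_pos hw' g h2).ne']
    ring

theorem Ent_fst {w : Ω → ℝ} {w' : Ω' → ℝ} (hw' : IsPr w') (f : Ω → α) :
    Ent (prodW w w') (fun p => f p.1) = Ent w f := by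
  unfold Ent
  rw [← sum_prodW_fst (w' := w') hw' (fun o => -Real.log (pr w f (f o)))]
  exact Finset.sum_congr rfl fun p _ => by rw [pr_fst hw']

theorem Ent_snd {w : Ω → ℝ} {w' : Ω' → ℝ} (hw : IsPr w) (g : Ω' → β) :
    Ent (prodW w w') (fun p => g p.2) = Ent w' g := by
  unfold Ent
  rw [← sum_prodW_snd (w := w) hw (fun o => -Real.log (pr w' g (g o)))]
  exact Finset.sum_congr rfl fun p _ => by rw [pr_snd hw]

/-- constants have entropy zero -/
theorem Ent_const {w : Ω → ℝ} (hw : IsPr w) (a : α) : Ent w (fun _ => a) = 0 := by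
  unfold Ent pr
  simp [hw.sum_one]

/-- transport along an equivalence of the underlying space -/
theorem Ent_equiv {w : Ω → ℝ} {w' : Ω' → ℝ} (e : Ω ≃ Ω') (hww : ∀ o, w' (e o) = w o)
    (f : Ω' → α) : Ent w (fun o => f (e o)) = Ent w' f := by
  unfold Ent
  have hpr : ∀ a, pr w (fun o => f (e o)) a = pr w' f a := by
    intro a
    unfold pr
    refine Fintype.sum_equiv e _ _ fun o => ?_
    rw [hww]
  refine Fintype.sum_equiv e _ _ fun o => ?_
  rw [hww, hpr]

end Pool.Agent.Helper15.BP
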