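import Pool.Agent.Helper15.BP.Ent

/-!
# Families of random variables in a finite abelian group

`Fam G` is a finite probability space with side information `J` and a `G`-valued variable `Y`.
`A.D H = log [G:H] - H(Y mod H | J)` is the deficiency modulo the subgroup `H`.
-/

set_option autoImplicit false

namespace Pool.Agent.Helper15.BP

open Finset

/-- a family: finite weighted space, side information `J`, variable `Y` -/
structure Fam (G : Type) where
  Ω : Type
  ι : Type
  fin : Fintype Ω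
  w : Ω → ℝ
  hw : IsPr w
  J : Ω → ι
  Y : Ω → G

attribute [instance] Fam.fin

variable {G : Type} [AddCommGroup G]

namespace Fam

/-- the conditional entropy of `Y mod H` given `J` -/
noncomputable def c (A : Fam G) (H : AddSubgroup G) : ℝ :=
  Ent A.w (fun o => (A.J o, (QuotientAddGroup.mk (A.Y o) : G ⧸ H))) - Ent A.w A.J

/-- deficiency modulo `H` -/
noncomputable def D (A : Fam G) (H : AddSubgroup G) : ℝ := Real.log H.index - A.c H

/-- the family of independent sums -/
def add (A B : Fam G) : Fam G where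
  Ω := A.Ω × B.Ω
  ι := A.ι × B.ι
  fin := inferInstance
  w := prodW A.w B.w
  hw := A.hw.prod B.hw
  J := fun p => (A.J p.1, B.J p.2)
  Y := fun p => A.Y p.1 + B.Y p.2

/-- the fibre family `(Y₁ | Y₁ + Y₂)` -/
def fib (A B : Fam G) : Fam G where
  Ω := A.Ω × B.Ω
  ι := (A.ι × B.ι) × G
  fin := inferInstance
  w := prodW A.w B.w
  hw := A.hw.prod B.hw
  J := fun p => ((A.J p.1, B.J p.2), A.Y p.1 + B.Y p.2)
  Y := fun p => A.Y p.1

/-- the family conditioned on `Y mod V` -/
def res (A : Fam G) (V : AddSubgroup G) : Fam G where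
  Ω := A.Ω
  ι := A.ι × (G ⧸ V)
  fin := inferInstance
  w := A.w
  hw := A.hw
  J := fun o => (A.J o, QuotientAddGroup.mk (A.Y o))
  Y := A.Y

/-- the image family in the quotient -/
def mod (A : Fam G) (V : AddSubgroup G) : Fam (G ⧸ V) where
  Ω := A.Ω
  ι := A.ι
  fin := inferInstance
  w := A.w
  hw := A.hw
  J := A.J
  Y := fun o => QuotientAddGroup.mk (A.Y o)

theorem mk_eq_iff (H : AddSubgroup G) (x y : G) :
    (QuotientAddGroup.mk x : G ⧸ H) = QuotientAddGroup.mk y ↔ x - y ∈ H := by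
  rw [eq_comm, QuotientAddGroup.eq]
  constructor
  · intro h
    have : x - y = -y + x := by abel
    rwa [this]
  · intro h
    have : x - y = -y + x := by abel
    rwa [this] at h

theorem c_nonneg (A : Fam G) (H : AddSubgroup G) : 0 ≤ A.c H := by
  unfold c
  have := Ent_mono A.hw (f := A.J) (g := fun o => (A.J o, (QuotientAddGroup.mk (A.Y o) : G ⧸ H)))
    (fun o o' h => congrArg Prod.fst h)
  linarith

/-- `H(Y mod K | J) ≤ H(Y mod H | J) + log [H:K]` -/
theorem c_le_add [Finite G] (A : Fam G) {K H : AddSubgroup G} (h : K ≤ H) :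
    A.c K ≤ A.c H + Real.log (K.relIndex H) := by
  unfold c
  have h1 := Ent_le_add_log A.hw (fun o => (QuotientAddGroup.mk (A.Y o) : G ⧸ K))
    (fun o => (A.J o, (QuotientAddGroup.mk (A.Y o) : G ⧸ H))) (K.relIndex H) ?_
  · have h2 : Ent A.w (fun o => ((QuotientAddGroup.mk (A.Y o) : G ⧸ K),
        (A.J o, (QuotientAddGroup.mk (A.Y o) : G ⧸ H)))) =
        Ent A.w (fun o => (A.J o, (QuotientAddGroup.mk (A.Y o) : G ⧸ K))) := by
      refine Ent_congr fun o o' => ?_
      simp only [Prod.mk.injEq, mk_eq_iff]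
      constructor
      · rintro ⟨h3, h4, -⟩; exact ⟨h4, h3⟩
      · rintro ⟨h3, h4⟩; exact ⟨h4, h3, h h4⟩
    rw [h2] at h1
    linarith
  · intro o
    -- the fibre injects into H / K
    have hfin : Finite (H ⧸ K.addSubgroupOf H) := inferInstance
    have h3 : {a : G ⧸ K | ∃ o', (A.J o', (QuotientAddGroup.mk (A.Y o') : G ⧸ H)) =
        (A.J o, (QuotientAddGroup.mk (A.Y o) : G ⧸ H)) ∧ QuotientAddGroup.mk (A.Y o') = a} ⊆
        (fun x : H => (QuotientAddGroup.mk (A.Y o + x) : G ⧸ K)) '' Set.univ := by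
      rintro a ⟨o', h4, rfl⟩
      have h5 := (mk_eq_iff H _ _).1 (congrArg Prod.snd h4)
      exact ⟨⟨A.Y o' - A.Y o, h5⟩, trivial, by simp⟩
    refine (Set.ncard_le_ncard h3 (Set.toFinite _)).trans ?_
    rw [Set.image_univ]
    -- factor through the quotient
    have h4 : Set.range (fun x : H => (QuotientAddGroup.mk (A.Y o + x) : G ⧸ K)) ⊆
        Set.range (fun q : H ⧸ K.addSubgroupOf H =>
          (QuotientAddGroup.mk (A.Y o + (q.out : H)) : G ⧸ K)) := by
      rintro _ ⟨x, rfl⟩
      refine ⟨QuotientAddGroup.mk x, ?_⟩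
      have h5 : (QuotientAddGroup.mk ((QuotientAddGroup.mk x : H ⧸ K.addSubgroupOf H).out) :
          H ⧸ K.addSubgroupOf H) = QuotientAddGroup.mk x := Quotient.out_eq' _
      have h6 := (mk_eq_iff (K.addSubgroupOf H) _ _).1 h5
      simp only
      rw [mk_eq_iff]
      have h7 : ((QuotientAddGroup.mk x : H ⧸ K.addSubgroupOf H).out : H) - x ∈
        K.addSubgroupOf H := h6
      rw [AddSubgroup.mem_addSubgroupOf] at h7
      have h8 : A.Y o + (((QuotientAddGroup.mk x : H ⧸ K.addSubgroupOf H).out : H) : G) -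
          (A.Y o + (x : G)) = (((QuotientAddGroup.mk x : H ⧸ K.addSubgroupOf H).out - x : H) : G) := by
        push_cast
        abel
      rw [h8]
      exact h7
    refine (Set.ncard_le_ncard h4 (Set.toFinite _)).trans ?_
    rw [← Set.image_univ]
    refine (Set.ncard_image_le (Set.toFinite _)).trans ?_
    rw [Set.ncard_univ]
    exact le_of_eq rfl

/-- the deficiency decreases with the subgroup -/
theorem D_anti [Finite G] (A : Fam G) {K H : AddSubgroup G} (h : K ≤ H) : A.D H ≤ A.D K := by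
  unfold D
  have h1 := A.c_le_add h
  have h2 : (K.relIndex H : ℝ) * (H.index : ℝ) = K.index := by
    exact_mod_cast AddSubgroup.relIndex_mul_index h
  have h3 : Real.log K.index = Real.log (K.relIndex H) + Real.log H.index := by
    rw [← h2, Real.log_mul]
    · have : K.relIndex H ≠ 0 := by
        intro h0
        rw [h0, Nat.cast_zero, zero_mul] at h2
        exact AddSubgroup.index_ne_zero_of_finite (H := K) (by exact_mod_cast h2.symm)
      exact_mod_cast this
    · exact_mod_cast AddSubgroup.index_ne_zero_of_finite (H := H)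
  linarith

theorem D_top (A : Fam G) : A.D ⊤ = 0 := by
  unfold D c
  rw [AddSubgroup.index_top, Nat.cast_one, Real.log_one]
  have : Ent A.w (fun o => (A.J o, (QuotientAddGroup.mk (A.Y o) : G ⧸ (⊤ : AddSubgroup G)))) =
      Ent A.w A.J := by
    refine Ent_congr fun o o' => ?_
    simp only [Prod.mk.injEq, mk_eq_iff]
    simp
  rw [this]
  ring

theorem D_nonneg [Finite G] (A : Fam G) (H : AddSubgroup G) : 0 ≤ A.D H := by
  rw [← A.D_top]
  exact A.D_anti le_top

theorem D_le_log_index (A : Fam G) (H : AddSubgroup G) : A.D H ≤ Real.log H.index := by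
  unfold D
  linarith [A.c_nonneg H]

/-- log-indices of the modular law -/
theorem log_index_modular [Finite G] (H K : AddSubgroup G) :
    Real.log (H ⊓ K).index + Real.log (H ⊔ K).index = Real.log H.index + Real.log K.index := by
  have e : ∀ S : AddSubgroup G, (S.index : ℝ) ≠ 0 := fun S => by
    exact_mod_cast AddSubgroup.index_ne_zero_of_finite (H := S)
  rw [← Real.log_mul (e _) (e _), ← Real.log_mul (e _) (e _)]
  congr 1
  have h1 : (H ⊓ K).relIndex K * K.index = (H ⊓ K).index :=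
    AddSubgroup.relIndex_mul_index inf_le_right
  have h2 : H.relIndex (H ⊔ K) * (H ⊔ K).index = H.index :=
    AddSubgroup.relIndex_mul_index le_sup_left
  have h3 : (H ⊓ K).relIndex K = H.relIndex K := AddSubgroup.inf_relIndex_right H K
  have h4 : H.relIndex (H ⊔ K) = H.relIndex K := AddSubgroup.relIndex_sup_left K H
  rw [h3] at h1
  rw [h4] at h2
  have h5 : (H ⊓ K).index * (H ⊔ K).index = H.index * K.index := by
    rw [← h1, ← h2]
    ring
  exact_mod_cast h5

/-- **supermodularity** of the deficiency -/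
theorem D_supermod [Finite G] (A : Fam G) (H K : AddSubgroup G) :
    A.D H + A.D K ≤ A.D (H ⊓ K) + A.D (H ⊔ K) := by
  have h1 := Ent_submod A.hw (fun o => (QuotientAddGroup.mk (A.Y o) : G ⧸ H))
    (fun o => (QuotientAddGroup.mk (A.Y o) : G ⧸ K))
    (fun o => (A.J o, (QuotientAddGroup.mk (A.Y o) : G ⧸ (H ⊔ K))))
  have e1 : Ent A.w (fun o => ((QuotientAddGroup.mk (A.Y o) : G ⧸ H),
      (QuotientAddGroup.mk (A.Y o) : G ⧸ K), A.J o,
      (QuotientAddGroup.mk (A.Y o) : G ⧸ (H ⊔ K)))) =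
      Ent A.w (fun o => (A.J o, (QuotientAddGroup.mk (A.Y o) : G ⧸ (H ⊓ K)))) := by
    refine Ent_congr fun o o' => ?_
    simp only [Prod.mk.injEq, mk_eq_iff]
    constructor
    · rintro ⟨a, b, c, -⟩; exact ⟨c, a, b⟩
    · rintro ⟨a, b, c⟩; exact ⟨b, c, a, (le_sup_left : H ≤ H ⊔ K) b⟩
  have e2 : Ent A.w (fun o => ((QuotientAddGroup.mk (A.Y o) : G ⧸ H),
      A.J o, (QuotientAddGroup.mk (A.Y o) : G ⧸ (H ⊔ K)))) =
      Ent A.w (fun o => (A.J o, (QuotientAddGroup.mk (A.Y o) : G ⧸ H))) := by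
    refine Ent_congr fun o o' => ?_
    simp only [Prod.mk.injEq, mk_eq_iff]
    constructor
    · rintro ⟨a, b, -⟩; exact ⟨b, a⟩
    · rintro ⟨a, b⟩; exact ⟨b, a, (le_sup_left : H ≤ H ⊔ K) b⟩
  have e3 : Ent A.w (fun o => ((QuotientAddGroup.mk (A.Y o) : G ⧸ K),
      A.J o, (QuotientAddGroup.mk (A.Y o) : G ⧸ (H ⊔ K)))) =
      Ent A.w (fun o => (A.J o, (QuotientAddGroup.mk (A.Y o) : G ⧸ K))) := by
    refine Ent_congr fun o o' => ?_
    simp only [Prod.mk.injEq, mk_eq_iff]
    constructor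
    · rintro ⟨a, b, -⟩; exact ⟨b, a⟩
    · rintro ⟨a, b⟩; exact ⟨b, a, (le_sup_right : K ≤ H ⊔ K) b⟩
  rw [e1, e2, e3] at h1
  have h2 := log_index_modular H K
  unfold D c
  linarith

/-- the deficiency at the trivial subgroup -/
theorem D_bot (A : Fam G) :
    A.D ⊥ = Real.log (Nat.card G) - (Ent A.w (fun o => (A.J o, A.Y o)) - Ent A.w A.J) := by
  unfold D c
  rw [AddSubgroup.index_bot]
  congr 2
  refine Ent_congr fun o o' => ?_
  simp only [Prod.mk.injEq, mk_eq_iff, AddSubgroup.mem_bot, sub_eq_zero]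

theorem c_add_ge_left (A B : Fam G) (H : AddSubgroup G) : A.c H ≤ (A.add B).c H := by
  have h1 := Ent_submod (w := prodW A.w B.w) (A.hw.prod B.hw)
    (fun p => (QuotientAddGroup.mk (A.Y p.1 + B.Y p.2) : G ⧸ H)) (fun p => B.Y p.2)
    (fun p => (A.J p.1, B.J p.2))
  have e1 : Ent (prodW A.w B.w) (fun p => ((QuotientAddGroup.mk (A.Y p.1 + B.Y p.2) : G ⧸ H),
      B.Y p.2, A.J p.1, B.J p.2)) =
      Ent (prodW A.w B.w) (fun p => ((fun o => (A.J o, (QuotientAddGroup.mk (A.Y o) : G ⧸ H))) p.1,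
        (fun o => (B.J o, B.Y o)) p.2)) := by
    refine Ent_congr fun o o' => ?_
    simp only [Prod.mk.injEq, mk_eq_iff]
    constructor
    · rintro ⟨a, b, c, d⟩
      refine ⟨⟨c, ?_⟩, d, b⟩
      rw [b] at a
      simpa using a
    · rintro ⟨⟨c, a⟩, d, b⟩
      refine ⟨?_, b, c, d⟩
      rw [b]
      simpa using a
  have e2 : Ent (prodW A.w B.w) (fun p => (B.Y p.2, A.J p.1, B.J p.2)) =
      Ent (prodW A.w B.w) (fun p => (A.J p.1, (fun o => (B.J o, B.Y o)) p.2)) := by
    refine Ent_congr fun o o' => ?_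
    simp only [Prod.mk.injEq]
    tauto
  have q1 := Ent_prod A.hw B.hw (fun o => (A.J o, (QuotientAddGroup.mk (A.Y o) : G ⧸ H)))
    (fun o => (B.J o, B.Y o))
  have q2 := Ent_prod A.hw B.hw A.J (fun o => (B.J o, B.Y o))
  have q3 := Ent_prod A.hw B.hw A.J B.J
  rw [e1, e2, q1, q2, q3] at h1
  have e3 : (A.add B).c H = Ent (prodW A.w B.w)
      (fun p => ((QuotientAddGroup.mk (A.Y p.1 + B.Y p.2) : G ⧸ H), A.J p.1, B.J p.2)) -
      (Ent A.w A.J + Ent B.w B.J) := by
    unfold c
    rw [← Ent_prod A.hw B.hw]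
    congr 1
    refine Ent_congr fun o o' => ?_
    simp only [add, Prod.mk.injEq]
    tauto
  rw [e3]
  unfold c
  linarith

/-- adding an independent family decreases the deficiency -/
theorem D_add_le (A B : Fam G) (H : AddSubgroup G) : (A.add B).D H ≤ A.D H := by
  unfold D
  linarith [A.c_add_ge_left B H]

end Fam

/-- contraction for groups of exponent two: families of slope at most `lam` satisfy
`D(Y₁+Y₂) ≤ σ D(Y)` -/
def Contr (lam σ : ℝ) : Prop :=
  ∀ (G : Type) [AddCommGroup G] [Finite G], (∀ x : G, x + x = 0) → ∀ A : Fam G,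
    (∀ K : AddSubgroup G, A.D K ≤ lam * Real.log K.index) → (A.add A).D ⊥ ≤ σ * A.D ⊥

/-- the deficiency of the sum of two copies of `(Y mod H | Y mod V)` -/
noncomputable def secD {G : Type} [AddCommGroup G] (A : Fam G) (V H : AddSubgroup G) : ℝ :=
  Real.log (H.relIndex V) -
    (Ent (prodW A.w A.w) (fun p => ((A.J p.1, A.J p.2),
        ((QuotientAddGroup.mk (A.Y p.1) : G ⧸ V), (QuotientAddGroup.mk (A.Y p.2) : G ⧸ V)),
        (QuotientAddGroup.mk (A.Y p.1 + A.Y p.2) : G ⧸ H))) -
      Ent (prodW A.w A.w) (fun p => ((A.J p.1, A.J p.2),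
        ((QuotientAddGroup.mk (A.Y p.1) : G ⧸ V), (QuotientAddGroup.mk (A.Y p.2) : G ⧸ V)))))

end Pool.Agent.Helper15.BP
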