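import Pool.Agent.Helper15.BP.Fam

/-!
# Laws: conditional laws, convolutions, the distance functional

`law w f g c` is the conditional law of `f` given `g = c`.  For a law `p` on a finite group `G`,
`DL p H` is its deficiency modulo `H` and `dd p = H(X + X') - H(X)`.
-/

set_option autoImplicit false

namespace Pool.Agent.Helper15.BP

open Finset

variable {Ω Ω' α β γ : Type*} [Fintype Ω] [Fintype Ω']

/-- conditional law of `f` given `g = c` -/
noncomputable def law (w : Ω → ℝ) (f : Ω → α) (g : Ω → γ) (c : γ) : α → ℝ :=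
  fun a => pr w (fun o => (f o, g o)) (a, c) / pr w g c

/-- mass of a fibre of a composed function -/
theorem pr_comp_eq [Fintype α] (w : Ω → ℝ) (f : Ω → α) (h : α → β) (b : β) :
    pr w (fun o => h (f o)) b = pr (fun a => pr w f a) h b := by
  classical
  unfold pr
  have h1 : ∀ a, (if h a = b then ∑ o, (if f o = a then w o else 0) else 0) =
      ∑ o, if f o = a then (if h (f o) = b then w o else 0) else 0 := by
    intro a
    by_cases ha : h a = b
    · rw [if_pos ha]
      refine Finset.sum_congr rfl fun o _ => ?_
      by_cases hf : f o = a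
      · simp [hf, ha]
      · simp [hf]
    · rw [if_neg ha]
      symm
      refine Finset.sum_eq_zero fun o _ => ?_
      by_cases hf : f o = a
      · simp [hf, ha]
      · simp [hf]
  rw [Finset.sum_congr rfl fun a _ => h1 a, Finset.sum_comm]
  refine Finset.sum_congr rfl fun o _ => ?_
  simp

theorem sum_pr [Fintype α] (w : Ω → ℝ) (f : Ω → α) : ∑ a, pr w f a = ∑ o, w o := by
  classical
  unfold pr
  rw [Finset.sum_comm]
  refine Finset.sum_congr rfl fun o _ => ?_
  simp

theorem isPr_law {w : Ω → ℝ} (hw : IsPr w) [Fintype α] (f : Ω → α) (g : Ω → γ) (c : γ)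
    (hc : pr w g c ≠ 0) : IsPr (law w f g c) := by
  refine ⟨fun a => div_nonneg (pr_nonneg hw _ _) (pr_nonneg hw _ _), ?_⟩
  unfold law
  rw [← Finset.sum_div]
  have h1 : ∑ a, pr w (fun o => (f o, g o)) (a, c) = pr w g c := by
    unfold pr
    rw [Finset.sum_comm]
    refine Finset.sum_congr rfl fun o _ => ?_
    by_cases h : g o = c
    · rw [Finset.sum_eq_single (f o)]
      · simp [h]
      · intro b _ hb
        rw [if_neg]
        intro h'
        exact hb (congrArg Prod.fst h').symm
      · intro h'; exact absurd (Finset.mem_univ _) h'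
    · rw [if_neg h]
      refine Finset.sum_eq_zero fun b _ => ?_
      rw [if_neg]
      intro h'
      exact h (congrArg Prod.snd h')
  rw [h1, div_self hc]

theorem pr_div (u : Ω → ℝ) (k : ℝ) (h : Ω → β) (b : β) :
    pr (fun a => u a / k) h b = pr u h b / k := by
  unfold pr
  rw [Finset.sum_div]
  refine Finset.sum_congr rfl fun a _ => ?_
  split_ifs <;> simp

theorem pr_pr [Fintype α] (w : Ω → ℝ) (f : Ω → α) (g : Ω → γ) (c : γ) (h : α → β) (b : β) :
    pr (fun a => pr w (fun o => (f o, g o)) (a, c)) h b =
      pr w (fun o => (h (f o), g o)) (b, c) := by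
  classical
  have h1 : ∀ a, pr w (fun o => (f o, g o)) (a, c) =
      ∑ o, if f o = a ∧ g o = c then w o else 0 := by
    intro a
    unfold pr
    refine Finset.sum_congr rfl fun o _ => ?_
    by_cases h2 : f o = a <;> by_cases h3 : g o = c <;> simp [h2, h3]
  have h4 : pr w (fun o => (h (f o), g o)) (b, c) =
      ∑ o, if h (f o) = b ∧ g o = c then w o else 0 := by
    unfold pr
    refine Finset.sum_congr rfl fun o _ => ?_
    by_cases h2 : h (f o) = b <;> by_cases h3 : g o = c <;> simp [h2, h3]
  rw [h4, funext h1]
  unfold pr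
  have h5 : ∀ a, (if h a = b then (∑ o, if f o = a ∧ g o = c then w o else 0) else 0) =
      ∑ o, if f o = a then (if h (f o) = b ∧ g o = c then w o else 0) else 0 := by
    intro a
    by_cases ha : h a = b
    · rw [if_pos ha]
      refine Finset.sum_congr rfl fun o _ => ?_
      by_cases hf : f o = a
      · simp [hf, ha]
      · simp [hf]
    · rw [if_neg ha]
      symm
      refine Finset.sum_eq_zero fun o _ => ?_
      by_cases hf : f o = a
      · simp [hf, ha]
      · simp [hf]
  have h6 : ∑ a, (if h a = b then (∑ o, if f o = a ∧ g o = c then w o else 0) else 0) =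
      ∑ o, if h (f o) = b ∧ g o = c then w o else 0 := by
    rw [Finset.sum_congr rfl fun a _ => h5 a, Finset.sum_comm]
    refine Finset.sum_congr rfl fun o _ => ?_
    simp
  rw [← h6]

/-- mass of a fibre under the conditional law -/
theorem pr_law {w : Ω → ℝ} [Fintype α] (f : Ω → α) (g : Ω → γ) (c : γ)
    (h : α → β) (b : β) :
    pr (law w f g c) h b = pr w (fun o => (h (f o), g o)) (b, c) / pr w g c := by
  unfold law
  rw [pr_div, pr_pr]

/-- **fibre formula**: conditional entropy is the average of the entropies of the laws -/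
theorem Ent_fibre {w : Ω → ℝ} (hw : IsPr w) [Fintype α] (f : Ω → α) (g : Ω → γ) (h : α → β) :
    Ent w (fun o => (h (f o), g o)) - Ent w g =
      ∑ o, w o * Ent (law w f g (g o)) h := by
  classical
  -- right-hand side as a double sum
  have h1 : ∀ o, w o * Ent (law w f g (g o)) h =
      w o * ∑ a, law w f g (g o) a * (-Real.log (pr w (fun o => (h (f o), g o)) (h a, g o) /
        pr w g (g o))) := by
    intro o
    unfold Ent
    congr 1
    refine Finset.sum_congr rfl fun a _ => ?_
    rw [pr_law f g (g o) h (h a)]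
  have h2 := sum_w_comp w g (fun c => ∑ a, law w f g c a *
    (-Real.log (pr w (fun o => (h (f o), g o)) (h a, c) / pr w g c)))
  have h3 := sum_w_comp w (fun o => (f o, g o)) (fun t : α × γ =>
    (-Real.log (pr w (fun o => (h (f o), g o)) (h t.1, t.2) / pr w g t.2)))
  have h4 : ∑ c ∈ Finset.univ.image g, pr w g c * ∑ a, law w f g c a *
      (-Real.log (pr w (fun o => (h (f o), g o)) (h a, c) / pr w g c)) =
      ∑ t ∈ Finset.univ.image (fun o => (f o, g o)), pr w (fun o => (f o, g o)) t *
        (-Real.log (pr w (fun o => (h (f o), g o)) (h t.1, t.2) / pr w g t.2)) := by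
    have h5 : ∀ c ∈ Finset.univ.image g, pr w g c * ∑ a, law w f g c a *
        (-Real.log (pr w (fun o => (h (f o), g o)) (h a, c) / pr w g c)) =
        ∑ a, pr w (fun o => (f o, g o)) (a, c) *
        (-Real.log (pr w (fun o => (h (f o), g o)) (h a, c) / pr w g c)) := by
      intro c _
      rw [Finset.mul_sum]
      refine Finset.sum_congr rfl fun a _ => ?_
      unfold law
      rcases (pr_nonneg hw g c).eq_or_lt with h0 | h0
      · have h6 : pr w (fun o => (f o, g o)) (a, c) = 0 := by
          refine le_antisymm ?_ (pr_nonneg hw _ _)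
          rw [h0]
          unfold pr
          refine Finset.sum_le_sum fun o _ => ?_
          by_cases h7 : (f o, g o) = (a, c)
          · rw [if_pos h7, if_pos (congrArg Prod.snd h7)]
          · rw [if_neg h7]
            split_ifs <;> simp [hw.nonneg]
        rw [h6, ← h0]
        simp
      · rw [← mul_assoc, mul_div_cancel₀ _ h0.ne']
    rw [Finset.sum_congr rfl h5]
    have h6 : Finset.univ.image (fun o => (f o, g o)) ⊆
        (Finset.univ : Finset α) ×ˢ (Finset.univ.image g) := by
      intro t ht
      rw [Finset.mem_image] at ht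
      obtain ⟨o, -, rfl⟩ := ht
      simp
    rw [Finset.sum_subset h6]
    · rw [Finset.sum_product_right]
    · intro t _ ht
      rw [pr_zero_or (fun o => (f o, g o)) t (fun o h' => ht (h' ▸
        Finset.mem_image_of_mem (fun o => (f o, g o)) (Finset.mem_univ o))), zero_mul]
  rw [Finset.sum_congr rfl fun o _ => h1 o]
  rw [h2, h4, ← h3]
  unfold Ent
  rw [← Finset.sum_sub_distrib]
  refine Finset.sum_congr rfl fun o _ => ?_
  rcases (hw.nonneg o).eq_or_lt with h0 | h0
  · rw [← h0]; simp
  · have q1 := pr_pos hw (fun o => (h (f o), g o)) h0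
    have q2 := pr_pos hw g h0
    simp only at q1 ⊢
    rw [Real.log_div q1.ne' q2.ne']
    ring

variable {G : Type} [AddCommGroup G]

/-- convolution -/
def conv [Fintype G] (p q : G → ℝ) : G → ℝ := fun z => ∑ x, p x * q (z - x)

/-- deficiency of a law modulo `H` -/
noncomputable def DL [Fintype G] (p : G → ℝ) (H : AddSubgroup G) : ℝ :=
  Real.log H.index - Ent p (fun x => (QuotientAddGroup.mk x : G ⧸ H))

/-- entropy of a law -/
noncomputable def EL [Fintype G] (p : G → ℝ) : ℝ := Ent p (fun x => x)

/-- `H(X + X') - H(X)` -/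
noncomputable def dd [Fintype G] (p : G → ℝ) : ℝ := EL (conv p p) - EL p

theorem pr_id [Fintype α] (p : α → ℝ) (a : α) : pr p (fun x => x) a = p a := by
  classical
  unfold pr
  simp

omit [AddCommGroup G] in
theorem EL_eq [Fintype G] (p : G → ℝ) : EL p = ∑ x, p x * (-Real.log (p x)) := by
  unfold EL Ent
  exact Finset.sum_congr rfl fun x _ => by rw [pr_id]

theorem pr_sum_eq_conv [Fintype G] (p q : G → ℝ) (z : G) :
    pr (prodW p q) (fun t => t.1 + t.2) z = conv p q z := by
  classical
  unfold pr prodW conv
  rw [Fintype.sum_prod_type]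
  refine Finset.sum_congr rfl fun x _ => ?_
  rw [Finset.sum_eq_single (z - x)]
  · simp
  · intro y _ hy
    rw [if_neg]
    intro h
    apply hy
    simp only at h
    rw [← h]
    abel
  · intro h; exact absurd (Finset.mem_univ _) h

theorem isPr_conv [Fintype G] {p q : G → ℝ} (hp : IsPr p) (hq : IsPr q) : IsPr (conv p q) := by
  refine ⟨fun z => Finset.sum_nonneg fun x _ => mul_nonneg (hp.nonneg _) (hq.nonneg _), ?_⟩
  have h1 := sum_pr (prodW p q) (fun t : G × G => t.1 + t.2)
  rw [(hp.prod hq).sum_one] at h1
  rw [← h1]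
  exact Finset.sum_congr rfl fun z _ => (pr_sum_eq_conv p q z).symm

/-- entropy of a function of the sum of two independent variables -/
theorem Ent_conv [Fintype G] (p q : G → ℝ) (h : G → β) :
    Ent (conv p q) h = Ent (prodW p q) (fun t => h (t.1 + t.2)) := by
  classical
  unfold Ent
  have h1 : ∀ b, pr (prodW p q) (fun t => h (t.1 + t.2)) b = pr (conv p q) h b := by
    intro b
    rw [pr_comp_eq (prodW p q) (fun t : G × G => t.1 + t.2) h b]
    congr 1
    funext z
    exact pr_sum_eq_conv p q z
  have h2 : ∀ t : G × G, prodW p q t * (-Real.log (pr (prodW p q) (fun t => h (t.1 + t.2))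
      (h (t.1 + t.2)))) = prodW p q t * (fun z => -Real.log (pr (conv p q) h (h z))) (t.1 + t.2) := by
    intro t; rw [h1]
  rw [Finset.sum_congr rfl fun t _ => h2 t,
    sum_w_comp (prodW p q) (fun t : G × G => t.1 + t.2)
      (fun z => -Real.log (pr (conv p q) h (h z)))]
  have h3 : Finset.univ.image (fun t : G × G => t.1 + t.2) = (Finset.univ : Finset G) := by
    ext z
    simp only [Finset.mem_image, Finset.mem_univ, true_and, iff_true]
    exact ⟨(z, 0), by simp⟩
  rw [h3]
  exact Finset.sum_congr rfl fun z _ => by rw [pr_sum_eq_conv]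

namespace Fam

/-- the law of the member of the family through the point `o` -/
noncomputable def lawAt (A : Fam G) (o : A.Ω) : G → ℝ := law A.w A.Y A.J (A.J o)

/-- the deficiency is the average of the deficiencies of the members -/
theorem D_eq_sum [Fintype G] (A : Fam G) (H : AddSubgroup G) :
    A.D H = ∑ o, A.w o * DL (A.lawAt o) H := by
  have h1 := Ent_fibre A.hw A.Y A.J (fun x => (QuotientAddGroup.mk x : G ⧸ H))
  have h2 : Ent A.w (fun o => ((QuotientAddGroup.mk (A.Y o) : G ⧸ H), A.J o)) =
      Ent A.w (fun o => (A.J o, (QuotientAddGroup.mk (A.Y o) : G ⧸ H))) := by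
    refine Ent_congr fun o o' => ?_
    simp only [Prod.mk.injEq]
    tauto
  rw [h2] at h1
  unfold D c DL lawAt
  simp only [mul_sub]
  rw [Finset.sum_sub_distrib, ← Finset.sum_mul, A.hw.sum_one, one_mul, h1]

end Fam

end Pool.Agent.Helper15.BP
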