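import Pool.Agent.Helper15.BP.Slope

/-!
# Sections `(Y mod H | Y mod V)`
-/

set_option autoImplicit false

namespace Pool.Agent.Helper15.BP

open Finset Fam

variable {G : Type} [AddCommGroup G]

theorem log_index_sub [Finite G] {H V : AddSubgroup G} (h : H ≤ V) :
    Real.log (H.relIndex V) = Real.log H.index - Real.log V.index := by
  have h2 : (H.relIndex V : ℝ) * (V.index : ℝ) = H.index := by
    exact_mod_cast AddSubgroup.relIndex_mul_index h
  have hV : (V.index : ℝ) ≠ 0 := by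
    exact_mod_cast AddSubgroup.index_ne_zero_of_finite (H := V)
  have hH : (H.index : ℝ) ≠ 0 := by
    exact_mod_cast AddSubgroup.index_ne_zero_of_finite (H := H)
  have hr : (H.relIndex V : ℝ) ≠ 0 := by
    intro h0
    rw [h0, zero_mul] at h2
    exact hH h2.symm
  rw [← h2, Real.log_mul hr hV]
  ring

theorem D_sub_eq [Finite G] (A : Fam G) {H V : AddSubgroup G} (h : H ≤ V) :
    A.D H - A.D V = Real.log (H.relIndex V) -
      (Ent A.w (fun o => (A.J o, (QuotientAddGroup.mk (A.Y o) : G ⧸ H))) -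
       Ent A.w (fun o => (A.J o, (QuotientAddGroup.mk (A.Y o) : G ⧸ V)))) := by
  rw [log_index_sub h]
  unfold D c
  ring

/-- adding an independent copy decreases the deficiency of a section -/
theorem secD_le [Finite G] (A : Fam G) {H V : AddSubgroup G} (h : H ≤ V) :
    secD A V H ≤ A.D H - A.D V := by
  rw [D_sub_eq A h]
  unfold secD
  have h1 := Ent_submod (w := prodW A.w A.w) (A.hw.prod A.hw)
    (fun p => (QuotientAddGroup.mk (A.Y p.1 + A.Y p.2) : G ⧸ H))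
    (fun p => (QuotientAddGroup.mk (A.Y p.2) : G ⧸ H))
    (fun p => ((A.J p.1, A.J p.2),
        ((QuotientAddGroup.mk (A.Y p.1) : G ⧸ V), (QuotientAddGroup.mk (A.Y p.2) : G ⧸ V))))
  have e1 : Ent (prodW A.w A.w) (fun p => ((QuotientAddGroup.mk (A.Y p.1 + A.Y p.2) : G ⧸ H),
      (QuotientAddGroup.mk (A.Y p.2) : G ⧸ H), ((A.J p.1, A.J p.2),
        ((QuotientAddGroup.mk (A.Y p.1) : G ⧸ V), (QuotientAddGroup.mk (A.Y p.2) : G ⧸ V))))) =
      Ent (prodW A.w A.w) (fun p => ((fun o => (A.J o, (QuotientAddGroup.mk (A.Y o) : G ⧸ H))) p.1,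
        (fun o => (A.J o, (QuotientAddGroup.mk (A.Y o) : G ⧸ H))) p.2)) := by
    refine Ent_congr fun o o' => ?_
    simp only [Prod.mk.injEq, mk_eq_iff]
    constructor
    · rintro ⟨a, b, ⟨c, d⟩, -, -⟩
      refine ⟨⟨c, ?_⟩, d, b⟩
      have := H.sub_mem a b
      have e : A.Y o.1 + A.Y o.2 - (A.Y o'.1 + A.Y o'.2) - (A.Y o.2 - A.Y o'.2) =
        A.Y o.1 - A.Y o'.1 := by abel
      rwa [e] at this
    · rintro ⟨⟨c, a⟩, d, b⟩
      refine ⟨?_, b, ⟨c, d⟩, h a, h b⟩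
      have := H.add_mem a b
      have e : A.Y o.1 - A.Y o'.1 + (A.Y o.2 - A.Y o'.2) =
        A.Y o.1 + A.Y o.2 - (A.Y o'.1 + A.Y o'.2) := by abel
      rwa [e] at this
  have e2 : Ent (prodW A.w A.w) (fun p => ((QuotientAddGroup.mk (A.Y p.2) : G ⧸ H),
      ((A.J p.1, A.J p.2),
        ((QuotientAddGroup.mk (A.Y p.1) : G ⧸ V), (QuotientAddGroup.mk (A.Y p.2) : G ⧸ V))))) =
      Ent (prodW A.w A.w) (fun p => ((fun o => (A.J o, (QuotientAddGroup.mk (A.Y o) : G ⧸ V))) p.1,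
        (fun o => (A.J o, (QuotientAddGroup.mk (A.Y o) : G ⧸ H))) p.2)) := by
    refine Ent_congr fun o o' => ?_
    simp only [Prod.mk.injEq, mk_eq_iff]
    constructor
    · rintro ⟨b, ⟨c, d⟩, a, -⟩
      exact ⟨⟨c, a⟩, d, b⟩
    · rintro ⟨⟨c, a⟩, d, b⟩
      exact ⟨b, ⟨c, d⟩, a, h b⟩
  have e3 : Ent (prodW A.w A.w) (fun p => ((QuotientAddGroup.mk (A.Y p.1 + A.Y p.2) : G ⧸ H),
      ((A.J p.1, A.J p.2),
        ((QuotientAddGroup.mk (A.Y p.1) : G ⧸ V), (QuotientAddGroup.mk (A.Y p.2) : G ⧸ V))))) =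
      Ent (prodW A.w A.w) (fun p => ((A.J p.1, A.J p.2),
        ((QuotientAddGroup.mk (A.Y p.1) : G ⧸ V), (QuotientAddGroup.mk (A.Y p.2) : G ⧸ V)),
        (QuotientAddGroup.mk (A.Y p.1 + A.Y p.2) : G ⧸ H))) := by
    refine Ent_congr fun o o' => ?_
    simp only [Prod.mk.injEq]
    tauto
  have q1 := Ent_prod A.hw A.hw (fun o => (A.J o, (QuotientAddGroup.mk (A.Y o) : G ⧸ H)))
    (fun o => (A.J o, (QuotientAddGroup.mk (A.Y o) : G ⧸ H)))
  have q2 := Ent_prod A.hw A.hw (fun o => (A.J o, (QuotientAddGroup.mk (A.Y o) : G ⧸ V)))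
    (fun o => (A.J o, (QuotientAddGroup.mk (A.Y o) : G ⧸ H)))
  rw [e1, e2, e3, q1, q2] at h1
  linarith

theorem secD_chain [Finite G] (A : Fam G) {L K V : AddSubgroup G} (h : L ≤ K) (h' : K ≤ V) :
    secD A V L ≤ secD A V K + secD A K L := by
  have hl : Real.log (L.relIndex V) = Real.log (K.relIndex V) + Real.log (L.relIndex K) := by
    rw [log_index_sub (h.trans h'), log_index_sub h', log_index_sub h]
    ring
  unfold secD
  rw [hl]
  have h1 := Ent_submod (w := prodW A.w A.w) (A.hw.prod A.hw)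
    (fun p => (QuotientAddGroup.mk (A.Y p.1 + A.Y p.2) : G ⧸ L))
    (fun p => ((QuotientAddGroup.mk (A.Y p.1) : G ⧸ K), (QuotientAddGroup.mk (A.Y p.2) : G ⧸ K)))
    (fun p => ((A.J p.1, A.J p.2),
        ((QuotientAddGroup.mk (A.Y p.1) : G ⧸ V), (QuotientAddGroup.mk (A.Y p.2) : G ⧸ V)),
        (QuotientAddGroup.mk (A.Y p.1 + A.Y p.2) : G ⧸ K)))
  have e1 : Ent (prodW A.w A.w) (fun p => ((QuotientAddGroup.mk (A.Y p.1 + A.Y p.2) : G ⧸ L),
      ((QuotientAddGroup.mk (A.Y p.1) : G ⧸ K), (QuotientAddGroup.mk (A.Y p.2) : G ⧸ K)),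
      ((A.J p.1, A.J p.2),
        ((QuotientAddGroup.mk (A.Y p.1) : G ⧸ V), (QuotientAddGroup.mk (A.Y p.2) : G ⧸ V)),
        (QuotientAddGroup.mk (A.Y p.1 + A.Y p.2) : G ⧸ K)))) =
      Ent (prodW A.w A.w) (fun p => ((A.J p.1, A.J p.2),
        ((QuotientAddGroup.mk (A.Y p.1) : G ⧸ K), (QuotientAddGroup.mk (A.Y p.2) : G ⧸ K)),
        (QuotientAddGroup.mk (A.Y p.1 + A.Y p.2) : G ⧸ L))) := by
    refine Ent_congr fun o o' => ?_
    simp only [Prod.mk.injEq, mk_eq_iff]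
    constructor
    · rintro ⟨a, b, c, -, -⟩; exact ⟨c, b, a⟩
    · rintro ⟨c, b, a⟩; exact ⟨a, b, c, ⟨h' b.1, h' b.2⟩, h a⟩
  have e2 : Ent (prodW A.w A.w) (fun p => (((QuotientAddGroup.mk (A.Y p.1) : G ⧸ K),
      (QuotientAddGroup.mk (A.Y p.2) : G ⧸ K)),
      ((A.J p.1, A.J p.2),
        ((QuotientAddGroup.mk (A.Y p.1) : G ⧸ V), (QuotientAddGroup.mk (A.Y p.2) : G ⧸ V)),
        (QuotientAddGroup.mk (A.Y p.1 + A.Y p.2) : G ⧸ K)))) =
      Ent (prodW A.w A.w) (fun p => ((A.J p.1, A.J p.2),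
        ((QuotientAddGroup.mk (A.Y p.1) : G ⧸ K), (QuotientAddGroup.mk (A.Y p.2) : G ⧸ K)))) := by
    refine Ent_congr fun o o' => ?_
    simp only [Prod.mk.injEq, mk_eq_iff]
    constructor
    · rintro ⟨b, c, -, -⟩; exact ⟨c, b⟩
    · rintro ⟨c, b⟩
      refine ⟨b, c, ⟨h' b.1, h' b.2⟩, ?_⟩
      have := K.add_mem b.1 b.2
      have e : A.Y o.1 - A.Y o'.1 + (A.Y o.2 - A.Y o'.2) =
        A.Y o.1 + A.Y o.2 - (A.Y o'.1 + A.Y o'.2) := by abel
      rwa [e] at this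
  have e3 : Ent (prodW A.w A.w) (fun p => ((QuotientAddGroup.mk (A.Y p.1 + A.Y p.2) : G ⧸ L),
      ((A.J p.1, A.J p.2),
        ((QuotientAddGroup.mk (A.Y p.1) : G ⧸ V), (QuotientAddGroup.mk (A.Y p.2) : G ⧸ V)),
        (QuotientAddGroup.mk (A.Y p.1 + A.Y p.2) : G ⧸ K)))) =
      Ent (prodW A.w A.w) (fun p => ((A.J p.1, A.J p.2),
        ((QuotientAddGroup.mk (A.Y p.1) : G ⧸ V), (QuotientAddGroup.mk (A.Y p.2) : G ⧸ V)),
        (QuotientAddGroup.mk (A.Y p.1 + A.Y p.2) : G ⧸ L))) := by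
    refine Ent_congr fun o o' => ?_
    simp only [Prod.mk.injEq, mk_eq_iff]
    constructor
    · rintro ⟨a, c, b, -⟩; exact ⟨c, b, a⟩
    · rintro ⟨c, b, a⟩; exact ⟨a, c, b, h a⟩
  rw [e1, e2, e3] at h1
  linarith

theorem D_two_le [Finite G] (A : Fam G) {H V : AddSubgroup G} (h : H ≤ V) :
    (A.add A).D H ≤ (A.add A).D V + secD A V H := by
  have h0 := D_sub_eq (A.add A) h
  unfold secD
  have h1 := Ent_submod (w := prodW A.w A.w) (A.hw.prod A.hw)
    (fun p => (QuotientAddGroup.mk (A.Y p.1 + A.Y p.2) : G ⧸ H))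
    (fun p => ((QuotientAddGroup.mk (A.Y p.1) : G ⧸ V), (QuotientAddGroup.mk (A.Y p.2) : G ⧸ V)))
    (fun p => ((A.J p.1, A.J p.2), (QuotientAddGroup.mk (A.Y p.1 + A.Y p.2) : G ⧸ V)))
  have e1 : Ent (prodW A.w A.w) (fun p => ((QuotientAddGroup.mk (A.Y p.1 + A.Y p.2) : G ⧸ H),
      ((QuotientAddGroup.mk (A.Y p.1) : G ⧸ V), (QuotientAddGroup.mk (A.Y p.2) : G ⧸ V)),
      ((A.J p.1, A.J p.2), (QuotientAddGroup.mk (A.Y p.1 + A.Y p.2) : G ⧸ V)))) =
      Ent (prodW A.w A.w) (fun p => ((A.J p.1, A.J p.2),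
        ((QuotientAddGroup.mk (A.Y p.1) : G ⧸ V), (QuotientAddGroup.mk (A.Y p.2) : G ⧸ V)),
        (QuotientAddGroup.mk (A.Y p.1 + A.Y p.2) : G ⧸ H))) := by
    refine Ent_congr fun o o' => ?_
    simp only [Prod.mk.injEq, mk_eq_iff]
    constructor
    · rintro ⟨a, b, c, -⟩; exact ⟨c, b, a⟩
    · rintro ⟨c, b, a⟩; exact ⟨a, b, c, h a⟩
  have e2 : Ent (prodW A.w A.w) (fun p => (((QuotientAddGroup.mk (A.Y p.1) : G ⧸ V),
      (QuotientAddGroup.mk (A.Y p.2) : G ⧸ V)),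
      ((A.J p.1, A.J p.2), (QuotientAddGroup.mk (A.Y p.1 + A.Y p.2) : G ⧸ V)))) =
      Ent (prodW A.w A.w) (fun p => ((A.J p.1, A.J p.2),
        ((QuotientAddGroup.mk (A.Y p.1) : G ⧸ V), (QuotientAddGroup.mk (A.Y p.2) : G ⧸ V)))) := by
    refine Ent_congr fun o o' => ?_
    simp only [Prod.mk.injEq, mk_eq_iff]
    constructor
    · rintro ⟨b, c, -⟩; exact ⟨c, b⟩
    · rintro ⟨c, b⟩
      refine ⟨b, c, ?_⟩
      have := V.add_mem b.1 b.2
      have e : A.Y o.1 - A.Y o'.1 + (A.Y o.2 - A.Y o'.2) =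
        A.Y o.1 + A.Y o.2 - (A.Y o'.1 + A.Y o'.2) := by abel
      rwa [e] at this
  have e3 : Ent (prodW A.w A.w) (fun p => ((QuotientAddGroup.mk (A.Y p.1 + A.Y p.2) : G ⧸ H),
      ((A.J p.1, A.J p.2), (QuotientAddGroup.mk (A.Y p.1 + A.Y p.2) : G ⧸ V)))) =
      Ent (A.add A).w (fun o => ((A.add A).J o,
        (QuotientAddGroup.mk ((A.add A).Y o) : G ⧸ H))) := by
    refine Ent_congr fun o o' => ?_
    simp only [add, Prod.mk.injEq, mk_eq_iff]
    constructor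
    · rintro ⟨a, c, -⟩; exact ⟨c, a⟩
    · rintro ⟨c, a⟩; exact ⟨a, c, h a⟩
  have e4 : Ent (prodW A.w A.w) (fun p => ((A.J p.1, A.J p.2),
      (QuotientAddGroup.mk (A.Y p.1 + A.Y p.2) : G ⧸ V))) =
      Ent (A.add A).w (fun o => ((A.add A).J o,
        (QuotientAddGroup.mk ((A.add A).Y o) : G ⧸ V))) := rfl
  rw [e1, e2, e3, e4] at h1
  linarith

/-- **Section lemma**: the contraction for exponent-two groups applies to sections `V / H`. -/
theorem secD_section [Finite G] {lam σ : ℝ} (hC : Contr lam σ) (A : Fam G)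
    {H V : AddSubgroup G} (h : H ≤ V) (hx : ∀ x ∈ V, x + x ∈ H)
    (hs : ∀ K, H ≤ K → K ≤ V → A.D K - A.D V ≤ lam * (Real.log K.index - Real.log V.index)) :
    secD A V H ≤ σ * (A.D H - A.D V) := by
  classical
  -- representatives
  have hrep : ∀ g : G, g - (QuotientAddGroup.mk g : G ⧸ V).out ∈ V := by
    intro g
    rw [← mk_eq_iff]
    exact (Quotient.out_eq' _).symm
  let Q := V ⧸ H.addSubgroupOf V
  let B : Fam Q :=
    { Ω := A.Ω
      ι := A.ι × (G ⧸ V)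
      fin := inferInstance
      w := A.w
      hw := A.hw
      J := fun o => (A.J o, QuotientAddGroup.mk (A.Y o))
      Y := fun o => QuotientAddGroup.mk ⟨A.Y o - (QuotientAddGroup.mk (A.Y o) : G ⧸ V).out,
        hrep _⟩ }
  have hQ2 : ∀ x : Q, x + x = 0 := by
    intro x
    induction x using QuotientAddGroup.induction_on with
    | H z =>
      rw [← QuotientAddGroup.mk_add, QuotientAddGroup.eq_zero_iff, AddSubgroup.mem_addSubgroupOf]
      exact hx z z.2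
  -- the deficiency of B
  have hBD : ∀ K' : AddSubgroup Q, ∃ K : AddSubgroup G, H ≤ K ∧ K ≤ V ∧
      (∀ (g : G) (hg : g ∈ V), g ∈ K ↔ (QuotientAddGroup.mk (⟨g, hg⟩ : V) : Q) ∈ K') ∧
      Real.log K'.index = Real.log K.index - Real.log V.index := by
    intro K'
    refine ⟨(K'.comap (QuotientAddGroup.mk' (H.addSubgroupOf V))).map V.subtype, ?_, ?_, ?_, ?_⟩
    · intro g hg
      refine ⟨⟨g, h hg⟩, ?_, rfl⟩
      rw [SetLike.mem_coe, AddSubgroup.mem_comap]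
      have : (QuotientAddGroup.mk' (H.addSubgroupOf V)) ⟨g, h hg⟩ = 0 := by
        rw [QuotientAddGroup.mk'_apply, QuotientAddGroup.eq_zero_iff,
          AddSubgroup.mem_addSubgroupOf]
        exact hg
      rw [this]
      exact K'.zero_mem
    · rintro _ ⟨v, -, rfl⟩
      exact v.2
    · intro g hg
      constructor
      · rintro ⟨v, hv, hvg⟩
        have : v = ⟨g, hg⟩ := Subtype.ext hvg
        rw [← this]
        exact hv
      · intro h1
        exact ⟨⟨g, hg⟩, h1, rfl⟩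
    · have hKV : (K'.comap (QuotientAddGroup.mk' (H.addSubgroupOf V))).map V.subtype ≤ V := by
        rintro _ ⟨v, -, rfl⟩
        exact v.2
      rw [← log_index_sub hKV]
      congr 2
      unfold AddSubgroup.relIndex
      have h1 : ((K'.comap (QuotientAddGroup.mk' (H.addSubgroupOf V))).map
          V.subtype).addSubgroupOf V = K'.comap (QuotientAddGroup.mk' (H.addSubgroupOf V)) := by
        ext v
        rw [AddSubgroup.mem_addSubgroupOf]
        constructor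
        · rintro ⟨u, hu, huv⟩
          have : u = v := Subtype.ext huv
          rw [← this]
          exact hu
        · intro hv
          exact ⟨v, hv, rfl⟩
      rw [h1]
      exact (AddSubgroup.index_comap_of_surjective K'
        (QuotientAddGroup.mk'_surjective (H.addSubgroupOf V))).symm
  have hJ : Ent B.w B.J =
      Ent A.w (fun o => (A.J o, (QuotientAddGroup.mk (A.Y o) : G ⧸ V))) := rfl
  have hout : ∀ o o' : A.Ω, A.Y o - A.Y o' ∈ V →
      (QuotientAddGroup.mk (A.Y o) : G ⧸ V).out = (QuotientAddGroup.mk (A.Y o') : G ⧸ V).out := by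
    intro o o' h1
    rw [(mk_eq_iff V _ _).2 h1]
  have hBK : ∀ (K' : AddSubgroup Q) (K : AddSubgroup G), H ≤ K → K ≤ V →
      (∀ (g : G) (hg : g ∈ V), g ∈ K ↔ (QuotientAddGroup.mk (⟨g, hg⟩ : V) : Q) ∈ K') →
      Real.log K'.index = Real.log K.index - Real.log V.index →
      B.D K' = A.D K - A.D V := by
    intro K' K hHK hKV hmem hidx
    have e1 : Ent B.w (fun o => (B.J o, (QuotientAddGroup.mk (B.Y o) : Q ⧸ K'))) =
        Ent A.w (fun o => (A.J o, (QuotientAddGroup.mk (A.Y o) : G ⧸ K))) := by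
      refine Ent_congr fun o o' => ?_
      have key : A.Y o - A.Y o' ∈ V → (B.Y o - B.Y o' ∈ K' ↔ A.Y o - A.Y o' ∈ K) := by
        intro h1
        have h2 := hout o o' h1
        have h3 : B.Y o - B.Y o' = (QuotientAddGroup.mk (⟨A.Y o - A.Y o', h1⟩ : V) : Q) := by
          show (QuotientAddGroup.mk (⟨A.Y o - (QuotientAddGroup.mk (A.Y o) : G ⧸ V).out,
            hrep _⟩ : V) : Q) - (QuotientAddGroup.mk
            (⟨A.Y o' - (QuotientAddGroup.mk (A.Y o') : G ⧸ V).out, hrep _⟩ : V) : Q) = _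
          rw [← QuotientAddGroup.mk_sub]
          congr 1
          apply Subtype.ext
          show A.Y o - (QuotientAddGroup.mk (A.Y o) : G ⧸ V).out -
            (A.Y o' - (QuotientAddGroup.mk (A.Y o') : G ⧸ V).out) = A.Y o - A.Y o'
          rw [h2]
          abel
        rw [h3]
        exact (hmem _ h1).symm
      show ((A.J o, (QuotientAddGroup.mk (A.Y o) : G ⧸ V)), (QuotientAddGroup.mk (B.Y o) : Q ⧸ K')) =
        ((A.J o', (QuotientAddGroup.mk (A.Y o') : G ⧸ V)), (QuotientAddGroup.mk (B.Y o') : Q ⧸ K')) ↔ _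
      simp only [Prod.mk.injEq, mk_eq_iff]
      constructor
      · rintro ⟨⟨a, b⟩, c⟩
        exact ⟨a, (key b).1 c⟩
      · rintro ⟨a, b⟩
        exact ⟨⟨a, hKV b⟩, (key (hKV b)).2 b⟩
    unfold D c
    rw [e1, hJ, hidx]
    ring
  have hBs : ∀ K' : AddSubgroup Q, B.D K' ≤ lam * Real.log K'.index := by
    intro K'
    obtain ⟨K, hHK, hKV, hmem, hidx⟩ := hBD K'
    rw [hBK K' K hHK hKV hmem hidx, hidx]
    exact hs K hHK hKV
  have hfin := hC Q hQ2 B hBs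
  -- the bottom
  have hbot : B.D ⊥ = A.D H - A.D V := by
    refine hBK ⊥ H le_rfl h ?_ ?_
    · intro g hg
      rw [AddSubgroup.mem_bot, QuotientAddGroup.eq_zero_iff, AddSubgroup.mem_addSubgroupOf]
    · rw [← log_index_sub h, AddSubgroup.index_bot]
      rfl
  have hadd : (B.add B).D ⊥ = secD A V H := by
    rw [D_bot]
    unfold secD
    have e1 : Ent (B.add B).w (fun o => ((B.add B).J o, (B.add B).Y o)) =
        Ent (prodW A.w A.w) (fun p => ((A.J p.1, A.J p.2),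
        ((QuotientAddGroup.mk (A.Y p.1) : G ⧸ V), (QuotientAddGroup.mk (A.Y p.2) : G ⧸ V)),
        (QuotientAddGroup.mk (A.Y p.1 + A.Y p.2) : G ⧸ H))) := by
      refine Ent_congr fun o o' => ?_
      have key : A.Y o.1 - A.Y o'.1 ∈ V → A.Y o.2 - A.Y o'.2 ∈ V →
          (B.Y o.1 + B.Y o.2 = B.Y o'.1 + B.Y o'.2 ↔
            A.Y o.1 + A.Y o.2 - (A.Y o'.1 + A.Y o'.2) ∈ H) := by
        intro h1 h2
        have h3 := hout o.1 o'.1 h1
        have h4 := hout o.2 o'.2 h2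
        rw [← sub_eq_zero]
        have h5 : B.Y o.1 + B.Y o.2 - (B.Y o'.1 + B.Y o'.2) =
            (QuotientAddGroup.mk ((⟨A.Y o.1 - A.Y o'.1, h1⟩ : V) +
              (⟨A.Y o.2 - A.Y o'.2, h2⟩ : V)) : Q) := by
          show (QuotientAddGroup.mk (⟨A.Y o.1 - (QuotientAddGroup.mk (A.Y o.1) : G ⧸ V).out,
              hrep _⟩ : V) : Q) + (QuotientAddGroup.mk
              (⟨A.Y o.2 - (QuotientAddGroup.mk (A.Y o.2) : G ⧸ V).out, hrep _⟩ : V) : Q) -
            ((QuotientAddGroup.mk (⟨A.Y o'.1 - (QuotientAddGroup.mk (A.Y o'.1) : G ⧸ V).out,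
              hrep _⟩ : V) : Q) + (QuotientAddGroup.mk
              (⟨A.Y o'.2 - (QuotientAddGroup.mk (A.Y o'.2) : G ⧸ V).out, hrep _⟩ : V) : Q)) = _
          rw [← QuotientAddGroup.mk_add, ← QuotientAddGroup.mk_add, ← QuotientAddGroup.mk_sub]
          congr 1
          apply Subtype.ext
          show A.Y o.1 - (QuotientAddGroup.mk (A.Y o.1) : G ⧸ V).out +
            (A.Y o.2 - (QuotientAddGroup.mk (A.Y o.2) : G ⧸ V).out) -
            (A.Y o'.1 - (QuotientAddGroup.mk (A.Y o'.1) : G ⧸ V).out +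
            (A.Y o'.2 - (QuotientAddGroup.mk (A.Y o'.2) : G ⧸ V).out)) =
            A.Y o.1 - A.Y o'.1 + (A.Y o.2 - A.Y o'.2)
          rw [h3, h4]
          abel
        rw [h5, QuotientAddGroup.eq_zero_iff, AddSubgroup.mem_addSubgroupOf]
        have h6 : (((⟨A.Y o.1 - A.Y o'.1, h1⟩ : V) + (⟨A.Y o.2 - A.Y o'.2, h2⟩ : V) : V) : G) =
            A.Y o.1 + A.Y o.2 - (A.Y o'.1 + A.Y o'.2) := by
          show A.Y o.1 - A.Y o'.1 + (A.Y o.2 - A.Y o'.2) = _
          abel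
        rw [h6]
      show (((A.J o.1, (QuotientAddGroup.mk (A.Y o.1) : G ⧸ V)),
          (A.J o.2, (QuotientAddGroup.mk (A.Y o.2) : G ⧸ V))), B.Y o.1 + B.Y o.2) =
        (((A.J o'.1, (QuotientAddGroup.mk (A.Y o'.1) : G ⧸ V)),
          (A.J o'.2, (QuotientAddGroup.mk (A.Y o'.2) : G ⧸ V))), B.Y o'.1 + B.Y o'.2) ↔ _
      simp only [Prod.mk.injEq, mk_eq_iff]
      constructor
      · rintro ⟨⟨⟨a, b⟩, c, d⟩, e⟩
        exact ⟨⟨a, c⟩, ⟨b, d⟩, (key b d).1 e⟩
      · rintro ⟨⟨a, c⟩, ⟨b, d⟩, e⟩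
        exact ⟨⟨⟨a, b⟩, c, d⟩, (key b d).2 e⟩
    have e2 : Ent (B.add B).w (B.add B).J =
        Ent (prodW A.w A.w) (fun p => ((A.J p.1, A.J p.2),
        ((QuotientAddGroup.mk (A.Y p.1) : G ⧸ V), (QuotientAddGroup.mk (A.Y p.2) : G ⧸ V)))) := by
      refine Ent_congr fun o o' => ?_
      show ((A.J o.1, (QuotientAddGroup.mk (A.Y o.1) : G ⧸ V)),
          (A.J o.2, (QuotientAddGroup.mk (A.Y o.2) : G ⧸ V))) =
        ((A.J o'.1, (QuotientAddGroup.mk (A.Y o'.1) : G ⧸ V)),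
          (A.J o'.2, (QuotientAddGroup.mk (A.Y o'.2) : G ⧸ V))) ↔ _
      simp only [Prod.mk.injEq]
      tauto
    rw [e1, e2]
    rfl
  rw [hadd, hbot] at hfin
  exact hfin

end Pool.Agent.Helper15.BP
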