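import Pool.Agent.Helper15.BP.Rec
import Pool.Agent.Helper94.PF.PFR
import Pool.Agent.Helper29.BP.Step3
import Pool.Agent.Helper3.BP.Excess
import Pool.Agent.Helper26.BP.Iter
import Pool.Agent.Helper73.BG.Rank

/-!
# The contraction theorem

`Contr κ (C κ^c)` for all `κ ∈ (0,1]`, and its iterated form for finite abelian 2-groups.
-/

set_option autoImplicit false

namespace Pool.Agent.Helper15.BP

theorem rec_step (κ σ : ℝ) (hκ : 0 ≤ κ) (hσ0 : 0 ≤ σ) (hσ1 : σ ≤ 1) (hC : Contr (8 * κ) σ) :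
    Contr κ ((1592 * σ + 320 * κ) / 1597) := by
  refine rec_of ?_ ?_ ?_ (fun G _ _ A => fib_D_bot A) (fun G _ _ A B o h h' => lawAt_add A B o h h')
    κ σ hκ hσ0 hσ1 hC
  · intro G _ _ h2 p hp
    obtain ⟨H, h3, h4⟩ := Pool.Agent.Helper94.PF.pfr_law h2 p hp
    exact ⟨H, by linarith⟩
  · intro G _ _ h2 A
    exact step3 h2 A
  · intro G _ _ h2 A κ σ h3 h4 h5 h6 h7
    exact excess h2 A κ σ h3 h4 h5 h6 h7

/-- the recursion in the form used by the iteration -/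
theorem hrec : ∃ θ C : ℝ, θ < 1 ∧ ∀ κ σ : ℝ, 0 ≤ κ → κ ≤ 1 → 0 ≤ σ → σ ≤ 1 →
    Contr (8 * κ) σ → Contr κ (θ * σ + C * κ) := by
  refine ⟨1592 / 1597, 320 / 1597, by norm_num, fun κ σ hκ _ hσ0 hσ1 hC => ?_⟩
  have h := rec_step κ σ hκ hσ0 hσ1 hC
  have e : (1592 * σ + 320 * κ) / 1597 = 1592 / 1597 * σ + 320 / 1597 * κ := by ring
  rwa [e] at h

/-- **Contraction theorem** in exponent two -/
theorem contr_power : ∃ C c : ℝ, 1 ≤ C ∧ 0 < c ∧ c ≤ 1 ∧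
    ∀ κ : ℝ, 0 < κ → κ ≤ 1 → Contr κ (C * κ ^ c) := power_law hrec

/-- **Contraction theorem** for finite abelian 2-groups -/
theorem contrR_power : ∃ C c : ℝ, 1 ≤ C ∧ 0 < c ∧ c ≤ 1 ∧
    ∀ κ : ℝ, 0 < κ → κ ≤ 1 → ContrR κ (C * κ ^ c) := by
  obtain ⟨C, c, h1, h2, h3, h4⟩ := contr_power
  exact ⟨C, c, h1, h2, h3, fun κ hκ hκ1 =>
    Pool.Agent.Helper73.BG.contrR_of_contr κ _ (h4 κ hκ hκ1)⟩

/-- iterated contraction -/
theorem iter_final : ∃ C₀ c : ℝ, 1 ≤ C₀ ∧ 0 < c ∧ ∀ (G : Type) [AddCommGroup G] [Finite G],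
    (∃ k : ℕ, ∀ x : G, (2 ^ k : ℕ) • x = 0) →
    ∀ (A : Fam G) (X : ℝ), 0 < X → X ≤ 1 → Slope A (X / C₀) → ∀ j : ℕ,
      Slope (twoPow A j) (X ^ ((1 + c) ^ j) / C₀) ∧
      (twoPow A j).D ⊥ ≤ X ^ ((1 + c) ^ j - 1) * A.D ⊥ :=
  iter hrec (fun κ σ _ _ h => Pool.Agent.Helper73.BG.contrR_of_contr κ σ h)

end Pool.Agent.Helper15.BP
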