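import Pool.Agent.Helper15.BP.Sec
import Pool.Agent.Helper84.BP.Step5
import Pool.Agent.Helper2.BP.Step4

/-!
# The recursion for the contraction constant
-/

set_option autoImplicit false

namespace Pool.Agent.Helper15.BP

open Finset Fam

/-- the statement of the entropic PFR theorem with constant `C` -/
def PFR (C : ℝ) : Prop :=
  ∀ (G : Type) [AddCommGroup G] [Fintype G], (∀ x : G, x + x = 0) → ∀ p : G → ℝ, IsPr p →
    ∃ H : AddSubgroup G, (Real.log H.index - DL p H) + (DL p ⊥ - DL p H) ≤ C * dd p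

/-- `I(Y₁+Y₂ ; Y₁+Y₃ | Y₁+Y₂+Y₃+Y₄)` -/
noncomputable def II {G : Type} [AddCommGroup G] (A : Fam G) : ℝ :=
  ((A.fib A).add (A.fib A)).D ⊥ - 2 * (A.add A).D ⊥ + ((A.add A).add (A.add A)).D ⊥

/-- the statement of step 3 -/
def STEP3 : Prop :=
  ∀ (G : Type) [AddCommGroup G] [Fintype G], (∀ x : G, x + x = 0) → ∀ A : Fam G,
    0 ≤ II A ∧ ∑ o, ((A.fib A).add (A.fib A)).w o * dd (((A.fib A).add (A.fib A)).lawAt o) ≤
      3 * II A

/-- the statement of step 1 -/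
def EXCESS : Prop :=
  ∀ (G : Type) [AddCommGroup G] [Fintype G], (∀ x : G, x + x = 0) → ∀ (A : Fam G) (κ σ : ℝ),
    0 ≤ κ → 0 ≤ σ → σ ≤ 1 → Contr (8 * κ) σ → (∀ K, A.D K ≤ κ * Real.log K.index) →
    ∃ H : AddSubgroup G, (∀ K ≤ H, (A.fib A).D K - (A.fib A).D H ≤
        8 * κ * (Real.log K.index - Real.log H.index)) ∧
      8 * κ * Real.log H.index ≤ (A.fib A).D H ∧
      (A.fib A).D H ≤ 8 / 5 * (σ * A.D ⊥ - (A.add A).D ⊥)

theorem log_index_nonneg {G : Type} [AddCommGroup G] [Finite G] (H : AddSubgroup G) :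
    0 ≤ Real.log H.index := by
  apply Real.log_nonneg
  have : H.index ≠ 0 := AddSubgroup.index_ne_zero_of_finite
  exact_mod_cast Nat.one_le_iff_ne_zero.2 this

theorem rec_of (hpfr : PFR 22) (hstep3 : STEP3) (hexc : EXCESS)
    (hfib : ∀ (G : Type) [AddCommGroup G] [Fintype G] (A : Fam G),
      (A.fib A).D ⊥ = 2 * A.D ⊥ - (A.add A).D ⊥)
    (hlaw : ∀ (G : Type) [AddCommGroup G] [Fintype G] (A B : Fam G) (o : A.Ω × B.Ω),
      0 < A.w o.1 → 0 < B.w o.2 → (A.add B).lawAt o = conv (A.lawAt o.1) (B.lawAt o.2))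
    (κ σ : ℝ) (hκ : 0 ≤ κ) (hσ0 : 0 ≤ σ) (hσ1 : σ ≤ 1) (hC : Contr (8 * κ) σ) :
    Contr κ ((1592 * σ + 320 * κ) / 1597) := by
  classical
  intro G _ _ h2 A hs
  have : Fintype G := Fintype.ofFinite G
  obtain ⟨H, hH1, hH2, hH3⟩ := hexc G h2 A κ σ hκ hσ0 hσ1 hC hs
  obtain ⟨hI0, hI3⟩ := hstep3 G h2 A
  set F := A.fib A with hF
  have hFb := hfib G A
  rw [← hF] at hFb
  -- r ≤ σ s
  have hr : ((A.add A).add (A.add A)).D ⊥ ≤ σ * (A.add A).D ⊥ := by
    refine hC G h2 (A.add A) fun K => ?_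
    have h3 := A.D_add_le A K
    have h4 := hs K
    have h5 := mul_nonneg hκ (log_index_nonneg K)
    have h6 : 8 * κ * Real.log K.index = 8 * (κ * Real.log K.index) := by ring
    rw [h6]
    linarith
  have hrs : ((A.add A).add (A.add A)).D ⊥ ≤ (A.add A).D ⊥ := (A.add A).D_add_le (A.add A) ⊥
  have hs0 := (A.add A).D_nonneg ⊥
  have hr0 := ((A.add A).add (A.add A)).D_nonneg ⊥
  have hD0 := A.D_nonneg ⊥
  have hFH0 := F.D_nonneg H
  -- upper bound for D(2F)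
  have hup : (F.add F).D ⊥ ≤ F.D H + σ * (F.D ⊥ - F.D H) := by
    have h3 := D_two_le F (bot_le : (⊥ : AddSubgroup G) ≤ H)
    have h4 := F.D_add_le F H
    have h5 := secD_section hC F (bot_le : (⊥ : AddSubgroup G) ≤ H)
      (fun x _ => by rw [AddSubgroup.mem_bot]; exact h2 x) (fun K _ hK => hH1 K hK)
    linarith
  have hIdef : II A = (F.add F).D ⊥ - 2 * (A.add A).D ⊥ + ((A.add A).add (A.add A)).D ⊥ := rfl
  -- bound for I
  have hI : II A ≤ 18 / 5 * (σ * A.D ⊥ - (A.add A).D ⊥) := by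
    rw [hIdef]
    have h3 : 0 ≤ σ * F.D H := mul_nonneg hσ0 hFH0
    rw [hFb] at hup
    nlinarith
  -- step 4 for every pair
  have h4 : ∀ a b, 0 < F.w a → 0 < F.w b → ∃ Hp : AddSubgroup G,
      DL (conv (F.lawAt a) (F.lawAt b)) ⊥ - (4 / 3) * 22 * dd (conv (F.lawAt a) (F.lawAt b)) ≤
        DL (conv (F.lawAt a) (F.lawAt b)) Hp ∧
      ∀ K, Hp ≤ K → (1 / 4) * (Real.log Hp.index - Real.log K.index) ≤
        DL (conv (F.lawAt a) (F.lawAt b)) Hp - DL (conv (F.lawAt a) (F.lawAt b)) K := by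
    intro a b ha hb
    have q1 : IsPr (F.lawAt a) := isPr_law F.hw F.Y F.J (F.J a) (pr_pos F.hw F.J ha).ne'
    have q2 : IsPr (F.lawAt b) := isPr_law F.hw F.Y F.J (F.J b) (pr_pos F.hw F.J hb).ne'
    have q3 := isPr_conv q1 q2
    exact step4 22 (by norm_num) _ q3 (dd_nonneg q3) (hpfr G h2 _ q3)
  have h4' : ∀ a b, ∃ Hp : AddSubgroup G, 0 < F.w a → 0 < F.w b →
      (DL (conv (F.lawAt a) (F.lawAt b)) ⊥ - (4 / 3) * 22 * dd (conv (F.lawAt a) (F.lawAt b)) ≤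
        DL (conv (F.lawAt a) (F.lawAt b)) Hp ∧
      ∀ K, Hp ≤ K → (1 / 4) * (Real.log Hp.index - Real.log K.index) ≤
        DL (conv (F.lawAt a) (F.lawAt b)) Hp - DL (conv (F.lawAt a) (F.lawAt b)) K) := by
    intro a b
    by_cases ha : 0 < F.w a
    · by_cases hb : 0 < F.w b
      · obtain ⟨Hp, h5⟩ := h4 a b ha hb
        exact ⟨Hp, fun _ _ => h5⟩
      · exact ⟨⊥, fun _ h => absurd h hb⟩
    · exact ⟨⊥, fun h _ => absurd h ha⟩
  choose Hp hHp using h4'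
  have h5 := step5 F H (8 * κ) ((4 / 3) * 22) (by positivity) hH1 Hp
    (fun a b ha hb => (hHp a b ha hb).1) (fun a b ha hb => (hHp a b ha hb).2)
  -- identify the left-hand side
  have h6 : ∑ o : F.Ω × F.Ω, prodW F.w F.w o * (DL (conv (F.lawAt o.1) (F.lawAt o.2)) ⊥ -
      (4 / 3) * 22 * dd (conv (F.lawAt o.1) (F.lawAt o.2))) =
      (F.add F).D ⊥ - (4 / 3) * 22 * ∑ o, (F.add F).w o * dd ((F.add F).lawAt o) := by
    rw [(F.add F).D_eq_sum ⊥, Finset.mul_sum, ← Finset.sum_sub_distrib]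
    refine Finset.sum_congr rfl fun o _ => ?_
    show prodW F.w F.w o * _ = prodW F.w F.w o * _ - _ * (prodW F.w F.w o * _)
    rcases (F.hw.nonneg o.1).eq_or_lt with h0 | h0
    · have : prodW F.w F.w o = 0 := by unfold prodW; rw [← h0, zero_mul]
      rw [this]; ring
    · rcases (F.hw.nonneg o.2).eq_or_lt with h0' | h0'
      · have : prodW F.w F.w o = 0 := by unfold prodW; rw [← h0', mul_zero]
        rw [this]; ring
      · rw [hlaw G F F o h0 h0']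
        ring
  rw [h6] at h5
  have h7 : (F.add F).D ⊥ ≤ 88 * II A + F.D H + 32 * κ * F.D ⊥ := by
    have h8 := mul_le_mul_of_nonneg_left hI3 (show (0 : ℝ) ≤ 4 / 3 * 22 by norm_num)
    nlinarith
  have h8 : (A.add A).D ⊥ ≤ (F.add F).D ⊥ := by
    have : (F.add F).D ⊥ = II A + 2 * (A.add A).D ⊥ - ((A.add A).add (A.add A)).D ⊥ := by
      rw [hIdef]; ring
    linarith
  rw [hFb] at h7
  have h9 : 0 ≤ κ * (A.add A).D ⊥ := mul_nonneg hκ hs0
  have h10 : (A.add A).D ⊥ ≤ 88 * (18 / 5 * (σ * A.D ⊥ - (A.add A).D ⊥)) +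
      8 / 5 * (σ * A.D ⊥ - (A.add A).D ⊥) + 64 * κ * A.D ⊥ := by
    nlinarith
  rw [div_mul_eq_mul_div, le_div_iff₀ (by norm_num)]
  nlinarith

end Pool.Agent.Helper15.BP
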