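import Pool.Agent.Helper15.BP.Law

/-!
# Slopes in finite abelian groups and iterated sums
-/

set_option autoImplicit false

namespace Pool.Agent.Helper15.BP

/-- the subgroup `2G` -/
def dbl (G : Type) [AddCommGroup G] : AddSubgroup G := (nsmulAddMonoidHom 2 : G →+ G).range

theorem mem_dbl {G : Type} [AddCommGroup G] (x : G) : x ∈ dbl G ↔ ∃ y : G, 2 • y = x := by
  unfold dbl
  rw [AddMonoidHom.mem_range]
  rfl

/-- `Slope A κ`: the deficiency modulo `H` is at most `κ log [G : H + 2G]` for all `H` -/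
def Slope {G : Type} [AddCommGroup G] (A : Fam G) (κ : ℝ) : Prop :=
  ∀ H : AddSubgroup G, A.D H ≤ κ * Real.log (H ⊔ dbl G).index

/-- `2^j`-fold sums -/
def twoPow {G : Type} [AddCommGroup G] (A : Fam G) : ℕ → Fam G
  | 0 => A
  | j + 1 => (twoPow A j).add (twoPow A j)

/-- contraction for finite abelian 2-groups -/
def ContrR (κ σ : ℝ) : Prop :=
  ∀ (G : Type) [AddCommGroup G] [Finite G], (∃ k : ℕ, ∀ x : G, (2 ^ k : ℕ) • x = 0) →
    ∀ A : Fam G, Slope A κ → (A.add A).D ⊥ ≤ σ * A.D ⊥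

end Pool.Agent.Helper15.BP
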